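import Pool.Agent.Helper53.REC.Diag
import Pool.Agent.Helper60.REC.TRP
import Pool.Agent.Helper35.MU.FRB

/-!
# PBR: potentially abelian families have elements which are regular at almost all primes
-/

set_option autoImplicit false

open scoped Classical
open Polynomial

namespace REC

open MU

namespace PBR53

open Dg53

/-! ## A. Linear algebra -/

theorem comb {L : Type} [Field L] {n : ℕ} (α γ : Fin n → L) (hα : ∀ i, α i ≠ 0)
    (hγ : ∀ i, γ i ≠ 0) (hs : ∀ i j, ∀ N, 0 < N → α i ^ N = α j ^ N → α i = α j)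
    (hmax : ∀ k : ℕ, (Finset.univ.image fun i => α i ^ k * γ i).card ≤
      (Finset.univ.image α).card) (i j : Fin n) (hij : α i = α j) : γ i = γ j := by
  -- a good exponent
  have hbad : ∀ p : Fin n × Fin n, {k : ℕ | α p.1 ^ k * γ p.1 = α p.2 ^ k * γ p.2 ∧
      ¬ (α p.1 = α p.2 ∧ γ p.1 = γ p.2)}.Finite := by
    rintro ⟨i, j⟩
    apply Set.Subsingleton.finite
    have haux : ∀ k k' : ℕ, k < k' → α i ^ k * γ i = α j ^ k * γ j →
        α i ^ k' * γ i = α j ^ k' * γ j → α i = α j ∧ γ i = γ j := by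
      intro k k' hkk h1 h2
      have h3 : α i ^ (k' - k) * (α j ^ k * γ j) = α j ^ (k' - k) * (α j ^ k * γ j) := by
        have e1 : α i ^ (k' - k) * (α i ^ k * γ i) = α i ^ k' * γ i := by
          rw [← mul_assoc, ← pow_add, Nat.sub_add_cancel hkk.le]
        have e2 : α j ^ (k' - k) * (α j ^ k * γ j) = α j ^ k' * γ j := by
          rw [← mul_assoc, ← pow_add, Nat.sub_add_cancel hkk.le]
        rw [e2, ← h2, ← e1, h1]
      have h4 : α j ^ k * γ j ≠ 0 := mul_ne_zero (pow_ne_zero _ (hα j)) (hγ j)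
      have h5 := hs i j (k' - k) (Nat.sub_pos_of_lt hkk) (mul_right_cancel₀ h4 h3)
      refine ⟨h5, ?_⟩
      rw [h5] at h1
      exact mul_left_cancel₀ (pow_ne_zero k (hα j)) h1
    rintro k ⟨h1, h2⟩ k' ⟨h1', h2'⟩
    rcases lt_trichotomy k k' with h | h | h
    · exact absurd (haux k k' h h1 h1') h2
    · exact h
    · exact absurd (haux k' k h h1' h1) h2
  have hfin : (⋃ p : Fin n × Fin n, {k : ℕ | α p.1 ^ k * γ p.1 = α p.2 ^ k * γ p.2 ∧
      ¬ (α p.1 = α p.2 ∧ γ p.1 = γ p.2)}).Finite := Set.finite_iUnion hbad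
  obtain ⟨k, hk⟩ := hfin.infinite_compl.nonempty
  have hgood : ∀ i j, α i ^ k * γ i = α j ^ k * γ j → α i = α j ∧ γ i = γ j := by
    intro i j h
    by_contra hne
    exact hk (Set.mem_iUnion.2 ⟨(i, j), h, hne⟩)
  set J : Finset (L × L) := Finset.univ.image fun i => (α i, γ i) with hJ
  have h1 : (J.image fun p => p.1 ^ k * p.2).card = J.card := by
    apply Finset.card_image_of_injOn
    intro p hp q hq hpq
    obtain ⟨i, -, rfl⟩ := Finset.mem_image.1 (Finset.mem_coe.1 hp)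
    obtain ⟨j, -, rfl⟩ := Finset.mem_image.1 (Finset.mem_coe.1 hq)
    obtain ⟨h2, h3⟩ := hgood i j hpq
    rw [h2, h3]
  have h2 : (J.image fun p => p.1 ^ k * p.2) = Finset.univ.image fun i => α i ^ k * γ i := by
    rw [hJ, Finset.image_image]
    rfl
  have h3 : J.image Prod.fst = Finset.univ.image α := by
    rw [hJ, Finset.image_image]
    rfl
  have h4 : (J.image Prod.fst).card = J.card := by
    refine le_antisymm Finset.card_image_le ?_
    rw [← h1, h2, h3]
    exact hmax k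
  have h5 := Finset.card_image_iff.1 h4
  have h6 : ((α i, γ i) : L × L) = (α j, γ j) :=
    h5 (Finset.mem_coe.2 (Finset.mem_image_of_mem _ (Finset.mem_univ i)))
      (Finset.mem_coe.2 (Finset.mem_image_of_mem _ (Finset.mem_univ j))) hij
  exact congrArg Prod.snd h6

theorem key {G K : Type} [Group G] [Field K] [CharZero K] {n : ℕ}
    {r : G →* Matrix (Fin n) (Fin n) K} (hr : IsSS r) (hc : ∀ g g', r g * r g' = r g' * r g)
    (s : G) (hs : Srg (r s)) (hmax : ∀ g, nde (r g) ≤ nde (r s)) (x : Matrix (Fin n) (Fin n) K)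
    (hx : x * r s = r s * x) (g : G) : x * r g = r g * x := by
  obtain ⟨P, P', d, hPP, hPP', hd⟩ := diag_all (L := AlgebraicClosure K) hr hc
  have har : ∀ g, (r g).charpoly.aroots (AlgebraicClosure K) = Finset.univ.val.map (d g) :=
    fun g => aroots_diag hPP (hd g)
  have hnde : ∀ g, nde (r g) = (Finset.univ.image (d g)).card := by
    intro g
    rw [nde, har]
    rfl
  have hdg : ∀ g, Matrix.diagonal (d g) = P' * (r g).map (algebraMap K (AlgebraicClosure K)) * P := by
    intro g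
    rw [hd, ← mul_assoc, ← mul_assoc, hPP', one_mul, mul_assoc, hPP', mul_one]
  have hmul : ∀ g h i, d (g * h) i = d g i * d h i := by
    intro g h i
    have h1 : Matrix.diagonal (d (g * h)) = Matrix.diagonal (d g) * Matrix.diagonal (d h) := by
      rw [hdg, hdg g, hdg h, map_mul, Matrix.map_mul]
      calc P' * ((r g).map (algebraMap K (AlgebraicClosure K)) *
            (r h).map (algebraMap K (AlgebraicClosure K))) * P
          = P' * (r g).map (algebraMap K (AlgebraicClosure K)) * 1 *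
            (r h).map (algebraMap K (AlgebraicClosure K)) * P := by
              rw [mul_one, ← mul_assoc]
        _ = _ := by
              rw [← hPP]
              simp only [mul_assoc]
    have h2 := congrArg (fun M => M i i) h1
    simpa using h2
  have hone : ∀ i, d 1 i = 1 := by
    intro i
    have h1 : Matrix.diagonal (d 1) = 1 := by
      rw [hdg, map_one, Matrix.map_one _ (map_zero _) (map_one _), mul_one, hPP']
    have h2 := congrArg (fun M => M i i) h1
    simpa using h2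
  have hne : ∀ g i, d g i ≠ 0 := by
    intro g i h0
    have h1 := hmul g g⁻¹ i
    rw [mul_inv_cancel, hone, h0, zero_mul] at h1
    exact one_ne_zero h1
  have hpow : ∀ (k : ℕ) (h : G) i, d (s ^ k * h) i = d s i ^ k * d h i := by
    intro k h i
    induction k with
    | zero => rw [pow_zero, one_mul, pow_zero, one_mul]
    | succ k ih => rw [pow_succ', mul_assoc, hmul, ih, pow_succ', mul_assoc]
  have hcomb := comb (d s) (d g) (hne s) (hne g) (by
      intro i j N hN hij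
      refine hs (d s i) ?_ (d s j) ?_ N hN hij
      · rw [har]; exact Multiset.mem_map_of_mem _ (Finset.mem_univ_val _)
      · rw [har]; exact Multiset.mem_map_of_mem _ (Finset.mem_univ_val _)) (by
      intro k
      have h1 := hmax (s ^ k * g)
      rw [hnde, hnde] at h1
      have h2 : d (s ^ k * g) = fun i => d s i ^ k * d g i := by
        ext i
        exact hpow k g i
      rwa [h2] at h1)
  set x' : Matrix (Fin n) (Fin n) (AlgebraicClosure K) :=
    P' * x.map (algebraMap K (AlgebraicClosure K)) * P with hx'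
  have hconj : ∀ h : G, x' * Matrix.diagonal (d h) =
      P' * (x * r h).map (algebraMap K (AlgebraicClosure K)) * P := by
    intro h
    rw [hdg, hx', Matrix.map_mul]
    calc P' * x.map (algebraMap K (AlgebraicClosure K)) * P *
          (P' * (r h).map (algebraMap K (AlgebraicClosure K)) * P)
        = P' * x.map (algebraMap K (AlgebraicClosure K)) * (P * P') *
          ((r h).map (algebraMap K (AlgebraicClosure K)) * P) := by simp only [mul_assoc]
      _ = _ := by rw [hPP, mul_one]; simp only [mul_assoc]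
  have hconj' : ∀ h : G, Matrix.diagonal (d h) * x' =
      P' * (r h * x).map (algebraMap K (AlgebraicClosure K)) * P := by
    intro h
    rw [hdg, hx', Matrix.map_mul]
    calc P' * (r h).map (algebraMap K (AlgebraicClosure K)) * P *
          (P' * x.map (algebraMap K (AlgebraicClosure K)) * P)
        = P' * (r h).map (algebraMap K (AlgebraicClosure K)) * (P * P') *
          (x.map (algebraMap K (AlgebraicClosure K)) * P) := by simp only [mul_assoc]
      _ = _ := by rw [hPP, mul_one]; simp only [mul_assoc]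
  have h1 : x' * Matrix.diagonal (d s) = Matrix.diagonal (d s) * x' := by
    rw [hconj, hconj', hx]
  have h2 : x' * Matrix.diagonal (d g) = Matrix.diagonal (d g) * x' := by
    ext i j
    have h3 := congrArg (fun M => M i j) h1
    simp only [Matrix.mul_diagonal, Matrix.diagonal_mul] at h3 ⊢
    by_cases h0 : x' i j = 0
    · rw [h0, zero_mul, mul_zero]
    · have h4 : d s j = d s i := by
        rw [mul_comm] at h3
        exact mul_right_cancel₀ h0 h3
      rw [hcomb j i h4, mul_comm]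
  rw [hconj, hconj'] at h2
  have h3 : (x * r g).map (algebraMap K (AlgebraicClosure K)) =
      (r g * x).map (algebraMap K (AlgebraicClosure K)) := by
    have h4 := congrArg (fun M => P * M * P') h2
    rw [show P * (P' * (x * r g).map (algebraMap K (AlgebraicClosure K)) * P) * P' =
        (P * P') * (x * r g).map (algebraMap K (AlgebraicClosure K)) * (P * P') by
          simp only [mul_assoc],
      show P * (P' * (r g * x).map (algebraMap K (AlgebraicClosure K)) * P) * P' =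
        (P * P') * (r g * x).map (algebraMap K (AlgebraicClosure K)) * (P * P') by
          simp only [mul_assoc], hPP, one_mul, mul_one, one_mul, mul_one] at h4
    exact h4
  exact Matrix.map_injective (algebraMap K (AlgebraicClosure K)).injective h3

/-! ## B. Integral characteristic polynomials -/

/-- the roots of an integral polynomial -/
noncomputable def rts (P : ℤ[X]) : Multiset (AlgebraicClosure ℚ) :=
  (P.map (Int.castRingHom ℚ)).aroots (AlgebraicClosure ℚ)

theorem rts_map (P : ℤ[X]) (K : Type) [Field K] [CharZero K] :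
    ∃ ι : AlgebraicClosure ℚ →+* AlgebraicClosure K,
      (P.map (Int.castRingHom K)).aroots (AlgebraicClosure K) = (rts P).map ι := by
  have halg : Algebra.IsAlgebraic ℚ (AlgebraicClosure ℚ) := by
    convert AlgebraicClosure.isAlgebraic ℚ
    · rfl
    · exact Subsingleton.elim _ _
  let ι : AlgebraicClosure ℚ →ₐ[ℚ] AlgebraicClosure K := IsAlgClosed.lift
  refine ⟨ι.toRingHom, ?_⟩
  rw [rts, aroots, aroots, ← (IsAlgClosed.splits _).roots_map, Polynomial.map_map,
    Polynomial.map_map, Polynomial.map_map]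
  congr 2
  exact RingHom.ext_int _ _

theorem nde_int {K : Type} [Field K] [CharZero K] {n : ℕ} {A : Matrix (Fin n) (Fin n) K} {P : ℤ[X]}
    (hP : A.charpoly = P.map (Int.castRingHom K)) : nde A = (rts P).toFinset.card := by
  obtain ⟨ι, hι⟩ := rts_map P K
  rw [nde, hP, hι, Multiset.toFinset_map, Finset.card_image_of_injective _ ι.injective]

theorem srg_int {K : Type} [Field K] [CharZero K] {n : ℕ} {A : Matrix (Fin n) (Fin n) K} {P : ℤ[X]}
    (hP : A.charpoly = P.map (Int.castRingHom K)) : Srg A ↔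
      ∀ a ∈ rts P, ∀ b ∈ rts P, ∀ N : ℕ, 0 < N → a ^ N = b ^ N → a = b := by
  obtain ⟨ι, hι⟩ := rts_map P K
  rw [Srg, hP, hι]
  constructor
  · intro h a ha b hb N hN hab
    apply ι.injective
    refine h (ι a) (Multiset.mem_map_of_mem _ ha) (ι b) (Multiset.mem_map_of_mem _ hb) N hN ?_
    rw [← map_pow, hab, map_pow]
  · intro h a' ha' b' hb' N hN hab
    obtain ⟨a, ha, rfl⟩ := Multiset.mem_map.1 ha'
    obtain ⟨b, hb, rfl⟩ := Multiset.mem_map.1 hb'
    rw [← map_pow, ← map_pow] at hab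
    rw [h a ha b hb N hN (ι.injective hab)]

/-- the squarefree part of an integral polynomial -/
theorem exists_rad (P : ℤ[X]) (hP : P.Monic) : ∃ R : ℤ[X], R.Monic ∧
    (R.map (Int.castRingHom ℚ)).Separable ∧ ∃ k : ℕ, P ∣ R ^ k := by
  set Q := P.map (algebraMap ℤ ℚ) with hQ
  have hQ0 : Q ≠ 0 := (hP.map _).ne_zero
  set D := UniqueFactorizationMonoid.radical Q with hD
  have hD0 : D ≠ 0 := UniqueFactorizationMonoid.radical_ne_zero
  obtain ⟨R, hR⟩ := IsIntegrallyClosed.eq_map_mul_C_of_dvd ℚ hP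
    (show D ∣ P.map (algebraMap ℤ ℚ) from UniqueFactorizationMonoid.radical_dvd_self)
  have hlc : D.leadingCoeff ≠ 0 := leadingCoeff_ne_zero.2 hD0
  have hRmap : R.map (algebraMap ℤ ℚ) = D * C D.leadingCoeff⁻¹ := by
    calc R.map (algebraMap ℤ ℚ)
        = R.map (algebraMap ℤ ℚ) * C D.leadingCoeff * C D.leadingCoeff⁻¹ := by
          rw [mul_assoc, ← C_mul, mul_inv_cancel₀ hlc, C_1, mul_one]
      _ = D * C D.leadingCoeff⁻¹ := by rw [hR]
  have hcast : (Int.castRingHom ℚ) = algebraMap ℤ ℚ := rfl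
  have hass : Associated (R.map (algebraMap ℤ ℚ)) D := by
    rw [hRmap]
    refine ⟨⟨C D.leadingCoeff, C D.leadingCoeff⁻¹, ?_, ?_⟩, ?_⟩
    · rw [← C_mul, mul_inv_cancel₀ hlc, C_1]
    · rw [← C_mul, inv_mul_cancel₀ hlc, C_1]
    · show D * C D.leadingCoeff⁻¹ * C D.leadingCoeff = D
      rw [mul_assoc, ← C_mul, inv_mul_cancel₀ hlc, C_1, mul_one]
  have hRm : R.Monic := by
    refine monic_of_injective (RingHom.injective_int (algebraMap ℤ ℚ)) ?_
    rw [hRmap]
    exact monic_mul_leadingCoeff_inv hD0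
  refine ⟨R, hRm, ?_, ?_⟩
  · rw [hcast, PerfectField.separable_iff_squarefree]
    exact (hass.squarefree_iff).2 UniqueFactorizationMonoid.squarefree_radical
  · obtain ⟨k, hk⟩ := UniqueFactorizationMonoid.exists_dvd_radical_self_pow hQ0
    refine ⟨k, ?_⟩
    rw [← Polynomial.map_dvd_map (algebraMap ℤ ℚ) (RingHom.injective_int (algebraMap ℤ ℚ)) hP,
      Polynomial.map_pow]
    exact hk.trans (pow_dvd_pow_of_dvd hass.symm.dvd k)

/-! ## C. Families -/

section

variable {l : ℕ} [Fact l.Prime] {G : Type} [Group G] {n : ℕ}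

theorem rat_eq (r : G →* Matrix.GeneralLinearGroup (Fin n) ℤ_[l]) (g : G) :
    rat r g = (r g : Matrix (Fin n) (Fin n) ℤ_[l]).map (algebraMap ℤ_[l] ℚ_[l]) := rfl

theorem rat_charpoly (r : G →* Matrix.GeneralLinearGroup (Fin n) ℤ_[l]) (g : G) (P : ℤ[X])
    (h : (r g : Matrix (Fin n) (Fin n) ℤ_[l]).charpoly = P.map (Int.castRingHom ℤ_[l])) :
    (rat r g).charpoly = P.map (Int.castRingHom ℚ_[l]) := by
  rw [rat_eq, Matrix.charpoly_map, h, Polynomial.map_map]
  congr 1

theorem hankel (r : G →* Matrix.GeneralLinearGroup (Fin n) ℤ_[l]) (g : G) (m : ℕ) :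
    (Matrix.of fun a b : Fin m => ((rat r g) ^ ((a : ℕ) + (b : ℕ))).trace).det =
      algebraMap ℤ_[l] ℚ_[l] (Matrix.of fun a b : Fin m =>
        ((r g : Matrix (Fin n) (Fin n) ℤ_[l]) ^ ((a : ℕ) + (b : ℕ))).trace).det := by
  rw [RingHom.map_det]
  congr 1
  ext a b
  rw [RingHom.mapMatrix_apply, Matrix.map_apply, Matrix.of_apply, Matrix.of_apply, rat_eq]
  have h1 : ((r g : Matrix (Fin n) (Fin n) ℤ_[l]).map (algebraMap ℤ_[l] ℚ_[l])) ^
      ((a : ℕ) + (b : ℕ)) = ((r g : Matrix (Fin n) (Fin n) ℤ_[l]) ^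
        ((a : ℕ) + (b : ℕ))).map (algebraMap ℤ_[l] ℚ_[l]) := by
    have h2 := map_pow ((algebraMap ℤ_[l] ℚ_[l]).mapMatrix (m := Fin n))
      (r g : Matrix (Fin n) (Fin n) ℤ_[l]) ((a : ℕ) + (b : ℕ))
    exact h2.symm
  rw [h1]
  simp [Matrix.trace, map_sum]

end

theorem frob (F : Type) [Field F] [NumberField F] (V : Set (Gal F)) (hV : IsOpen V) (g : Gal F)
    (hg : g ∈ V) (S : Finset ℕ) : ∃ (p : ℕ) (𝔓 : Ideal (Zb F)) (k : ℕ) (σ : Gal F), p.Prime ∧
      p ∉ S ∧ Over p 𝔓 ∧ 1 ≤ k ∧ CongPow 𝔓 (p ^ k) σ ∧ σ⁻¹ ∈ V := by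
  obtain ⟨Y, hYn, hYo, hYV⟩ := Pool.Agent.Helper60.REC8.exists_openNormal F
    ((fun y => g * y) ⁻¹' V) (hV.preimage (continuous_const.mul continuous_id)) (by
      show g * 1 ∈ V
      rwa [mul_one])
  obtain ⟨p, 𝔓, k, σ, hp, hpS, hover, hk, hcong, hσ⟩ := MU.st_FRB F Y hYn hYo S g⁻¹
  refine ⟨p, 𝔓, k, σ, hp, hpS, hover, hk, hcong, ?_⟩
  rw [inv_inv] at hσ
  have h1 : g⁻¹ * σ⁻¹ ∈ Y := by
    have h2 := Y.inv_mem (hYn.conj_mem _ hσ g⁻¹)
    have h3 : (g⁻¹ * (g * σ) * g⁻¹⁻¹)⁻¹ = g⁻¹ * σ⁻¹ := by group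
    rwa [h3] at h2
  have h2 : g * (g⁻¹ * σ⁻¹) ∈ V := hYV h1
  rwa [mul_inv_cancel_left] at h2

end PBR53

open PBR53 Dg53 in
theorem st_PBR (hPB0 : ST_PB0) (hHKL : ST_HKL) (hCLF : ST_CLF) : ST_PBR := by
  intro F _ _ S n ρ hfam hss H hH hcomm
  obtain ⟨hcont, hint⟩ := hfam
  have h2 : Fact (Nat.Prime 2) := ⟨Nat.prime_two⟩
  obtain ⟨U, Y, s₀, hUn, hUo, hUH, hYn, hYo, hYU, hs₀, hY⟩ :=
    hPB0 (Gal F) n 2 (ρ 2) (hcont 2) H hH (hcomm 2) (hss 2)
  obtain ⟨p, 𝔓, k, σ, hp, hpS, hover, hk, hcong, hσ⟩ := frob F ((fun y => s₀⁻¹ * y) ⁻¹' Y)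
    (hYo.preimage (continuous_const.mul continuous_id)) s₀ (by
      show s₀⁻¹ * s₀ ∈ Y
      rw [inv_mul_cancel]
      exact Y.one_mem) (insert 2 S)
  have hσY : s₀⁻¹ * σ⁻¹ ∈ Y := hσ
  rw [Finset.mem_insert, not_or] at hpS
  set s := σ⁻¹ with hs
  have hsU : s ∈ U := by
    have := U.mul_mem hs₀ (hYU hσY)
    rwa [mul_inv_cancel_left] at this
  obtain ⟨hsrg, hmax2⟩ := hY s hσY
  obtain ⟨P, hP⟩ := hint p hp hpS.2 𝔓 hover k σ hk hcong
  have hPm : P.Monic := by
    have h3 := hP 2 (fun h => hpS.1 h.symm)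
    have h4 := Matrix.charpoly_monic ((ρ 2 s : Matrix.GeneralLinearGroup (Fin n) ℤ_[2]) :
      Matrix (Fin n) (Fin n) ℤ_[2])
    rw [h3] at h4
    exact monic_of_injective (RingHom.injective_int _) h4
  obtain ⟨R, hRm, hRs, e, hRe⟩ := exists_rad P hPm
  refine ⟨U, s, R, p, hUn, hUo, hUH, hsU, hRm, hRs, ?_⟩
  intro l _ hl
  have hlp : l ≠ p := (Nat.ne_of_gt hl)
  have hPl := hP l hlp
  have hP2 := hP 2 (fun h => hpS.1 h.symm)
  have hndl := nde_int (rat_charpoly (ρ l) s P hPl)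
  have hnd2 := nde_int (rat_charpoly (ρ 2) s P hP2)
  have hsrgl : Srg (rat (ρ l) s) := by
    rw [srg_int (rat_charpoly (ρ l) s P hPl)]
    exact (srg_int (rat_charpoly (ρ 2) s P hP2)).1 hsrg
  have hmaxl : ∀ g ∈ U, nde (rat (ρ l) g) ≤ nde (rat (ρ l) s) := by
    intro g hg
    by_contra hlt
    rw [not_le] at hlt
    rcases ((hHKL ℚ_[l] n (rat (ρ l) g)).2 (nde (rat (ρ l) s) + 1)).1 hlt with h0 | ⟨m, hm, hdet⟩
    · omega
    rw [hankel, Ne, map_eq_zero_iff _ (IsFractionRing.injective ℤ_[l] ℚ_[l])] at hdet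
    obtain ⟨p', 𝔓', k', σ', hp', hpS', hover', hk', hcong', hσ'⟩ := frob F
      ({τ | (Matrix.of fun a b : Fin m => ((ρ l τ : Matrix (Fin n) (Fin n) ℤ_[l]) ^
        ((a : ℕ) + (b : ℕ))).trace).det ≠ 0} ∩ U) (by
        refine IsOpen.inter ?_ hUo
        refine isOpen_ne.preimage ?_
        refine Continuous.matrix_det ?_
        refine continuous_pi fun a => continuous_pi fun b => ?_
        have hc1 : Continuous fun τ : Gal F => ((ρ l τ : Matrix.GeneralLinearGroup (Fin n) ℤ_[l]) :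
            Matrix (Fin n) (Fin n) ℤ_[l]) := Units.continuous_val.comp (hcont l)
        exact Continuous.matrix_trace (hc1.pow _)) g ⟨hdet, hg⟩ (insert 2 (insert l S))
    rw [Finset.mem_insert, not_or, Finset.mem_insert, not_or] at hpS'
    obtain ⟨P', hP'⟩ := hint p' hp' hpS'.2.2 𝔓' hover' k' σ' hk' hcong'
    have h3 := nde_int (rat_charpoly (ρ l) σ'⁻¹ P' (hP' l (fun h => hpS'.2.1 h.symm)))
    have h4 := nde_int (rat_charpoly (ρ 2) σ'⁻¹ P' (hP' 2 (fun h => hpS'.1 h.symm)))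
    have h5 := hmax2 σ'⁻¹ hσ'.2
    have h6 := ((hHKL ℚ_[l] n (rat (ρ l) σ'⁻¹)).2 (nde (rat (ρ l) s) + 1)).2
      (Or.inr ⟨m, hm, by
        rw [hankel, Ne, map_eq_zero_iff _ (IsFractionRing.injective ℤ_[l] ℚ_[l])]
        exact hσ'.1⟩)
    rw [h3, hndl] at h6
    rw [h4, hnd2] at h5
    omega
  -- the restriction to U
  set r : U →* Matrix (Fin n) (Fin n) ℚ_[l] := (rat (ρ l)).comp U.subtype with hr
  have hrss : IsSS r := hCLF (Gal F) U ℚ_[l] U.subtype n (rat (ρ l)) (by
    rw [Subgroup.range_subtype]; exact hUn) (hss l)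
  have hrc : ∀ g g', r g * r g' = r g' * r g := by
    intro g g'
    show rat (ρ l) g * rat (ρ l) g' = rat (ρ l) g' * rat (ρ l) g
    rw [rat_eq, rat_eq, ← Matrix.map_mul, ← Matrix.map_mul]
    congr 1
    have h3 := hcomm l g (hUH g.2) g' (hUH g'.2)
    exact congrArg (fun u : Matrix.GeneralLinearGroup (Fin n) ℤ_[l] =>
      (u : Matrix (Fin n) (Fin n) ℤ_[l])) h3
  have hinj : Function.Injective (fun X : Matrix (Fin n) (Fin n) ℤ_[l] =>
      X.map (algebraMap ℤ_[l] ℚ_[l])) :=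
    Matrix.map_injective (IsFractionRing.injective ℤ_[l] ℚ_[l])
  constructor
  · have h3 : ∀ Q : ℤ[X], (aeval (ρ l s : Matrix (Fin n) (Fin n) ℤ_[l]) Q).map
        (algebraMap ℤ_[l] ℚ_[l]) = aeval (r ⟨s, hsU⟩) (Q.map (Int.castRingHom ℚ_[l])) := by
      intro Q
      have h4 : (Int.castRingHom ℚ_[l]) = algebraMap ℤ ℚ_[l] := rfl
      rw [h4, aeval_map_algebraMap]
      have h5 := aeval_algHom_apply (((Algebra.ofId ℤ_[l] ℚ_[l]).restrictScalars ℤ).mapMatrix
        (m := Fin n)) (ρ l s : Matrix (Fin n) (Fin n) ℤ_[l]) Q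
      exact h5.symm
    have h4 : aeval (ρ l s : Matrix (Fin n) (Fin n) ℤ_[l]) P = 0 := by
      have h5 := Matrix.aeval_self_charpoly (ρ l s : Matrix (Fin n) (Fin n) ℤ_[l])
      rw [hPl] at h5
      have h6 : (Int.castRingHom ℤ_[l]) = algebraMap ℤ ℤ_[l] := rfl
      rwa [h6, aeval_map_algebraMap] at h5
    have h5 : aeval (r ⟨s, hsU⟩) (R.map (Int.castRingHom ℚ_[l])) ^ e = 0 := by
      rw [← map_pow, ← Polynomial.map_pow, ← h3]
      obtain ⟨Q, hQ⟩ := hRe
      rw [hQ, map_mul, h4, zero_mul]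
      exact Matrix.map_zero _ (map_zero _)
    have h6 := red_aeval hrss hrc ⟨s, hsU⟩ _ e h5
    rw [← h3] at h6
    apply hinj
    show (aeval (ρ l s : Matrix (Fin n) (Fin n) ℤ_[l]) R).map (algebraMap ℤ_[l] ℚ_[l]) =
      (0 : Matrix (Fin n) (Fin n) ℤ_[l]).map (algebraMap ℤ_[l] ℚ_[l])
    rw [h6, Matrix.map_zero _ (map_zero _)]
  · intro x hx g hg
    have h3 := key hrss hrc ⟨s, hsU⟩ hsrgl (fun g => hmaxl g g.2) (x.map (algebraMap ℤ_[l] ℚ_[l]))
      (by
        show x.map (algebraMap ℤ_[l] ℚ_[l]) * rat (ρ l) s = rat (ρ l) s * _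
        rw [rat_eq, ← Matrix.map_mul, hx, Matrix.map_mul]) ⟨g, hg⟩
    have h4 : x.map (algebraMap ℤ_[l] ℚ_[l]) * rat (ρ l) g =
      rat (ρ l) g * x.map (algebraMap ℤ_[l] ℚ_[l]) := h3
    rw [rat_eq, ← Matrix.map_mul, ← Matrix.map_mul] at h4
    exact hinj h4

end REC
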