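import Pool.Agent.Helper85.REC.Stmts10
import Pool.Agent.Helper43.MU.Sub

/-!
# SEM: completely reducible representations with the same trace are isomorphic
-/

set_option autoImplicit false

open Polynomial

namespace REC

open MU

namespace SEM53

section

variable {K A : Type} [Field K] [Ring A] [Algebra K A]

/-- the action of an element of the algebra, as a `K`-linear map -/
noncomputable def act (V : Type) [AddCommGroup V] [Module K V] [Module A V] [IsScalarTower K A V]
    (a : A) : V →ₗ[K] V := Algebra.lsmul K K V a

theorem act_apply (V : Type) [AddCommGroup V] [Module K V] [Module A V] [IsScalarTower K A V]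
    (a : A) (v : V) : act (K := K) V a v = a • v := rfl

theorem act_mul (V : Type) [AddCommGroup V] [Module K V] [Module A V] [IsScalarTower K A V]
    (a b : A) : act (K := K) V (a * b) = act V a * act V b := map_mul _ _ _

theorem act_aeval (V : Type) [AddCommGroup V] [Module K V] [Module A V] [IsScalarTower K A V]
    (a : A) (q : K[X]) : act (K := K) V (aeval a q) = aeval (act (K := K) V a) q :=
  (aeval_algHom_apply (Algebra.lsmul K K V) a q).symm

theorem tr_iso {V W : Type} [AddCommGroup V] [Module K V] [Module A V] [IsScalarTower K A V]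
    [AddCommGroup W] [Module K W] [Module A W] [IsScalarTower K A W] (e : V ≃ₗ[A] W) (a : A) :
    LinearMap.trace K V (act V a) = LinearMap.trace K W (act W a) := by
  rw [← LinearMap.trace_conj' (act V a) (e.restrictScalars K)]
  congr 1
  ext w
  rw [LinearEquiv.conj_apply_apply, act_apply, act_apply]
  change e (a • e.symm w) = a • w
  rw [map_smul, LinearEquiv.apply_symm_apply]

theorem tr_prod (V W : Type) [AddCommGroup V] [Module K V] [Module A V] [IsScalarTower K A V]
    [AddCommGroup W] [Module K W] [Module A W] [IsScalarTower K A W] [FiniteDimensional K V]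
    [FiniteDimensional K W] (a : A) :
    LinearMap.trace K (V × W) (act (V × W) a) =
      LinearMap.trace K V (act V a) + LinearMap.trace K W (act W a) := by
  rw [← LinearMap.trace_prodMap']
  rfl

/-- an endomorphism `a` with `a w = w`, `w ≠ 0`, such that `a q(a)` has trace `0` for all
polynomials `q`, does not exist in characteristic `0` -/
theorem idem [CharZero K] {V : Type} [AddCommGroup V] [Module K V] [FiniteDimensional K V]
    (a : Module.End K V) (w : V) (hw : w ≠ 0) (haw : a w = w)
    (htr : ∀ q : K[X], LinearMap.trace K V (a * aeval a q) = 0) : False := by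
  classical
  obtain ⟨g, hg, hgX⟩ := exists_eq_pow_rootMultiplicity_mul_and_not_dvd a.charpoly
    a.charpoly_monic.ne_zero 0
  rw [C_0, sub_zero] at hg hgX
  set k := a.charpoly.rootMultiplicity 0 with hk
  have hcop : IsCoprime (Polynomial.X ^ (k + 1)) g :=
    ((Polynomial.irreducible_X (R := K)).coprime_iff_not_dvd.mpr hgX).pow_left
  obtain ⟨u, v, huv⟩ := hcop
  have hfa : aeval a (Polynomial.X ^ k * g) = 0 := by
    rw [← hg]; exact LinearMap.aeval_self_charpoly a
  set e := aeval a (u * Polynomial.X ^ (k + 1)) with he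
  have he1 : 1 - e = aeval a (v * g) := by
    have h1 : aeval a (u * Polynomial.X ^ (k + 1) + v * g) = 1 := by rw [huv, map_one]
    rw [map_add] at h1
    rw [he, ← h1]; abel
  have hidem : e * (1 - e) = 0 := by
    rw [he1, he, ← map_mul,
      show u * Polynomial.X ^ (k + 1) * (v * g) = u * v * Polynomial.X * (Polynomial.X ^ k * g) by ring, map_mul, hfa, mul_zero]
  have hide : e * e = e := by
    have h1 : e * (1 - e) = e - e * e := by rw [mul_sub, mul_one]
    rw [h1] at hidem
    exact (sub_eq_zero.mp hidem).symm
  have hetr : LinearMap.trace K V e = 0 := by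
    have h1 := htr (u * Polynomial.X ^ k)
    have h2 : e = a * aeval a (u * Polynomial.X ^ k) := by
      rw [he, show u * Polynomial.X ^ (k + 1) = Polynomial.X * (u * Polynomial.X ^ k) by ring, map_mul, aeval_X]
    rw [h2]; exact h1
  have he0 : e = 0 := LinearMap.IsIdempotentElem.eq_zero_of_trace_eq_zero hide hetr
  -- a polynomial in `a` acts on `w` by its value at `1`
  have hact : ∀ q : K[X], (aeval a q) w = q.eval 1 • w := by
    intro q
    induction q using Polynomial.induction_on' with
    | add p q hp hq => rw [map_add, LinearMap.add_apply, hp, hq, eval_add, add_smul]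
    | monomial m c =>
      rw [aeval_monomial, eval_monomial, one_pow, mul_one]
      have h1 : ∀ m : ℕ, (a ^ m) w = w := by
        intro m
        induction m with
        | zero => rfl
        | succ m ih => rw [pow_succ, Module.End.mul_apply, haw, ih]
      rw [Module.End.mul_apply, h1]
      rfl
  have h1 := hact (Polynomial.X ^ k * g)
  rw [hfa, LinearMap.zero_apply] at h1
  have h2 : (Polynomial.X ^ k * g).eval 1 = 0 := by
    rcases smul_eq_zero.mp h1.symm with h | h
    · exact h
    · exact absurd h hw
  have h3 : g.eval 1 = 0 := by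
    rw [eval_mul, eval_pow, eval_X, one_pow, one_mul] at h2
    exact h2
  have h4 : (u * Polynomial.X ^ (k + 1)).eval 1 = 1 := by
    have h5 := congrArg (eval 1) huv
    rw [eval_add, eval_mul (p := v), h3, mul_zero, add_zero, eval_one] at h5
    exact h5
  have h5 := hact (u * Polynomial.X ^ (k + 1))
  rw [h4, one_smul, ← he, he0, LinearMap.zero_apply] at h5
  exact hw h5.symm

/-- if `a` kills `W` then it kills the simple submodules of `V` -/
theorem ann_le [CharZero K] {V W : Type} [AddCommGroup V] [Module K V] [Module A V]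
    [IsScalarTower K A V] [FiniteDimensional K V]
    [AddCommGroup W] [Module K W] [Module A W] [IsScalarTower K A W]
    (htr : ∀ a : A, LinearMap.trace K V (act V a) = LinearMap.trace K W (act W a))
    (S : Submodule A V) [IsSimpleModule A S] (a : A) (ha : ∀ w : W, a • w = 0) (s : S) :
    a • s = 0 := by
  by_contra h0
  have h1 : Submodule.span A {a • s} = ⊤ := by
    rcases eq_bot_or_eq_top (Submodule.span A {a • s}) with h | h
    · exact absurd (Submodule.span_singleton_eq_bot.mp h) h0
    · exact h
  have h2 : s ∈ Submodule.span A {a • s} := by rw [h1]; exact Submodule.mem_top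
  obtain ⟨b, hb⟩ := Submodule.mem_span_singleton.mp h2
  refine idem (act (K := K) V (a * b)) ((a • s : S) : V) (fun h => h0 (Subtype.ext h)) ?_ ?_
  · rw [act_apply, ← Submodule.coe_smul, mul_smul, hb]
  · intro q
    rw [← act_aeval, ← act_mul, htr]
    have h3 : act (K := K) W (a * b * aeval (a * b) q) = 0 := by
      ext w
      rw [act_apply, mul_assoc, mul_smul, ha]
      rfl
    rw [h3, map_zero]

/-- a simple module killed by the annihilator of a semisimple module is a submodule of it -/
theorem embed {S W : Type} [AddCommGroup S] [Module A S] [IsSimpleModule A S]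
    [AddCommGroup W] [Module K W] [Module A W] [IsScalarTower K A W] [FiniteDimensional K W]
    [IsSemisimpleModule A W] (h : ∀ a : A, (∀ w : W, a • w = 0) → ∀ s : S, a • s = 0) :
    ∃ j : S →ₗ[A] W, Function.Injective j := by
  obtain ⟨s, hs⟩ : ∃ s : S, s ≠ 0 := by
    have := IsSimpleModule.nontrivial A S
    exact exists_ne 0
  let b := Module.finBasis K W
  let ev : A →ₗ[A] (Fin (Module.finrank K W) → W) := LinearMap.pi fun i =>
    LinearMap.toSpanSingleton A W (b i)
  let φ : A →ₗ[A] S := LinearMap.toSpanSingleton A S s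
  have hφ : Function.Surjective φ := IsSimpleModule.toSpanSingleton_surjective A hs
  have hker : LinearMap.ker ev ≤ LinearMap.ker φ := by
    intro a ha
    rw [LinearMap.mem_ker] at ha ⊢
    refine h a (fun w => ?_) s
    have h1 : act (K := K) W a = 0 := by
      refine b.ext fun i => ?_
      rw [act_apply]
      exact congrFun ha i
    rw [← act_apply (K := K), h1]
    rfl
  let ψ : LinearMap.range ev →ₗ[A] S :=
    ((LinearMap.ker ev).liftQ φ hker).comp (ev.quotKerEquivRange.symm : _ →ₗ[A] _)
  have hψ : Function.Surjective ψ := by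
    intro t
    obtain ⟨a, rfl⟩ := hφ t
    refine ⟨ev.quotKerEquivRange (Submodule.Quotient.mk a), ?_⟩
    simp [ψ]
  obtain ⟨σ, hσ⟩ := IsSemisimpleModule.lifting_property ψ hψ LinearMap.id
  let τ : S →ₗ[A] (Fin (Module.finrank K W) → W) := (LinearMap.range ev).subtype.comp σ
  have hτ : τ s ≠ 0 := by
    intro h1
    have h2 : σ s = 0 := Subtype.ext h1
    have h3 : ψ (σ s) = s := congrArg (fun f => f s) hσ
    rw [h2, map_zero] at h3
    exact hs h3.symm
  obtain ⟨i, hi⟩ : ∃ i, τ s i ≠ 0 := by
    by_contra h1
    push Not at h1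
    exact hτ (funext h1)
  refine ⟨(LinearMap.proj i).comp τ, ?_⟩
  rcases LinearMap.injective_or_eq_zero ((LinearMap.proj i).comp τ) with h1 | h1
  · exact h1
  · exact absurd (congrArg (fun f => f s) h1) hi

/-- the theorem for modules -/
theorem main [CharZero K] (d : ℕ) : ∀ (V W : Type) [AddCommGroup V] [Module K V] [Module A V]
    [IsScalarTower K A V] [FiniteDimensional K V] [IsSemisimpleModule A V]
    [AddCommGroup W] [Module K W] [Module A W] [IsScalarTower K A W] [FiniteDimensional K W]
    [IsSemisimpleModule A W], Module.finrank K V ≤ d →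
    (∀ a : A, LinearMap.trace K V (act V a) = LinearMap.trace K W (act W a)) →
    Nonempty (V ≃ₗ[A] W) := by
  induction d with
  | zero =>
    intro V W _ _ _ _ _ _ _ _ _ _ _ _ hd htr
    have h1 := htr 1
    have h2 : act (K := K) V (1 : A) = 1 := map_one _
    have h3 : act (K := K) W (1 : A) = 1 := map_one _
    rw [h2, h3, LinearMap.trace_one, LinearMap.trace_one] at h1
    have h4 : Module.finrank K V = Module.finrank K W := by exact_mod_cast h1
    have h5 : Subsingleton V := (Module.finrank_zero_iff (R := K)).mp (by omega)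
    have h6 : Subsingleton W := (Module.finrank_zero_iff (R := K)).mp (by omega)
    exact ⟨LinearEquiv.ofBijective 0 ⟨fun _ _ _ => Subsingleton.elim _ _,
      fun w => ⟨0, Subsingleton.elim _ _⟩⟩⟩
  | succ d ih =>
    intro V W _ _ _ _ _ _ _ _ _ _ _ _ hd htr
    rcases subsingleton_or_nontrivial V with hV | hV
    · have h1 := htr 1
      have h2 : act (K := K) V (1 : A) = 1 := map_one _
      have h3 : act (K := K) W (1 : A) = 1 := map_one _
      rw [h2, h3, LinearMap.trace_one, LinearMap.trace_one] at h1
      have h4 : Module.finrank K V = Module.finrank K W := by exact_mod_cast h1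
      have h5 : Module.finrank K V = 0 := (Module.finrank_zero_iff (R := K)).mpr hV
      have h6 : Subsingleton W := (Module.finrank_zero_iff (R := K)).mp (by omega)
      exact ⟨LinearEquiv.ofBijective 0 ⟨fun _ _ _ => Subsingleton.elim _ _,
        fun w => ⟨0, Subsingleton.elim _ _⟩⟩⟩
    obtain ⟨S, hS⟩ := IsSemisimpleModule.exists_simple_submodule A V
    obtain ⟨j, hj⟩ := embed (K := K) (S := S) (W := W) (ann_le htr S)
    obtain ⟨V₁, hV₁⟩ := exists_isCompl S
    obtain ⟨W₁, hW₁⟩ := exists_isCompl (LinearMap.range j)
    let eV := Submodule.prodEquivOfIsCompl S V₁ hV₁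
    let eW := Submodule.prodEquivOfIsCompl (LinearMap.range j) W₁ hW₁
    let eS : S ≃ₗ[A] LinearMap.range j := LinearEquiv.ofInjective j hj
    have f1 : FiniteDimensional K S :=
      FiniteDimensional.of_injective (S.subtype.restrictScalars K) S.subtype_injective
    have f2 : FiniteDimensional K V₁ :=
      FiniteDimensional.of_injective (V₁.subtype.restrictScalars K) V₁.subtype_injective
    have f3 : FiniteDimensional K (LinearMap.range j) :=
      FiniteDimensional.of_injective ((LinearMap.range j).subtype.restrictScalars K)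
        (LinearMap.range j).subtype_injective
    have f4 : FiniteDimensional K W₁ :=
      FiniteDimensional.of_injective (W₁.subtype.restrictScalars K) W₁.subtype_injective
    have hfr : Module.finrank K S + Module.finrank K V₁ = Module.finrank K V := by
      rw [← Module.finrank_prod]
      exact (eV.restrictScalars K).finrank_eq
    have hS0 : 0 < Module.finrank K S := by
      have := IsSimpleModule.nontrivial A S
      exact Module.finrank_pos
    have htr' : ∀ a : A, LinearMap.trace K V₁ (act V₁ a) = LinearMap.trace K W₁ (act W₁ a) := by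
      intro a
      have h1 := htr a
      rw [← tr_iso eV, ← tr_iso eW, tr_prod, tr_prod, ← tr_iso eS] at h1
      exact add_left_cancel h1
    obtain ⟨e₁⟩ := ih V₁ W₁ (by omega) htr'
    exact ⟨eV.symm.trans ((eS.prodCongr e₁).trans eW)⟩

end

section

variable {G K : Type} [Group G] [Field K] {n : ℕ}

/-- complements of stable subspaces -/
theorem exists_compl {r : G →* Matrix (Fin n) (Fin n) K} (hr : IsSS r)
    (U : Submodule K (Fin n → K)) (hU : ∀ g, ∀ v ∈ U, (r g).mulVec v ∈ U) :
    ∃ U' : Submodule K (Fin n → K), (∀ g, ∀ v ∈ U', (r g).mulVec v ∈ U') ∧ IsCompl U U' := by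
  obtain ⟨B, A, hBA, hB⟩ := isSub_of_stable r U hU
  obtain ⟨C, hCB, hC⟩ := hr _ B A hBA
  refine ⟨LinearMap.ker C.mulVecLin, fun g v hv => ?_, ?_, ?_⟩
  · rw [LinearMap.mem_ker, Matrix.mulVecLin_apply] at hv ⊢
    rw [Matrix.mulVec_mulVec, hC, ← Matrix.mulVec_mulVec, hv, Matrix.mulVec_zero]
  · rw [Submodule.disjoint_def]
    intro v hv hv'
    rw [← hB] at hv
    obtain ⟨w, rfl⟩ := hv
    rw [LinearMap.mem_ker, Matrix.mulVecLin_apply, Matrix.mulVecLin_apply, Matrix.mulVec_mulVec,
      hCB, Matrix.one_mulVec] at hv'
    rw [hv', map_zero]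
  · rw [codisjoint_iff, Submodule.eq_top_iff']
    intro v
    have h1 : B.mulVec (C.mulVec v) ∈ U :=
      hB.le ⟨C.mulVec v, rfl⟩
    have h2 : v - B.mulVec (C.mulVec v) ∈ LinearMap.ker C.mulVecLin := by
      rw [LinearMap.mem_ker, Matrix.mulVecLin_apply, Matrix.mulVec_sub, Matrix.mulVec_mulVec (M := C),
        hCB, Matrix.one_mulVec, sub_self]
    have h3 := Submodule.add_mem_sup h1 h2
    rwa [add_sub_cancel] at h3

/-- the representation -/
noncomputable def rp (r : G →* Matrix (Fin n) (Fin n) K) : Representation K G (Fin n → K) :=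
  (Matrix.toLinAlgEquiv' (R := K) (n := Fin n) :
    Matrix (Fin n) (Fin n) K →* ((Fin n → K) →ₗ[K] (Fin n → K))).comp r

theorem rp_apply (r : G →* Matrix (Fin n) (Fin n) K) (g : G) (v : Fin n → K) :
    rp r g v = (r g).mulVec v := rfl

theorem alg_mem {r : G →* Matrix (Fin n) (Fin n) K} {U : Submodule K (Fin n → K)}
    (hU : ∀ g, ∀ v ∈ U, (r g).mulVec v ∈ U) (a : MonoidAlgebra K G) (v : Fin n → K)
    (hv : v ∈ U) : (rp r).asAlgebraHom a v ∈ U := by
  induction a using MonoidAlgebra.induction_on with
  | of g =>
    rw [Representation.asAlgebraHom_of, rp_apply]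
    exact hU g v hv
  | add a b ha hb =>
    rw [map_add, LinearMap.add_apply]
    exact U.add_mem ha hb
  | smul c a ha =>
    rw [map_smul, LinearMap.smul_apply]
    exact U.smul_mem c ha

theorem semisimple {r : G →* Matrix (Fin n) (Fin n) K} (hr : IsSS r) :
    IsSemisimpleModule (MonoidAlgebra K G) (rp r).asModule := by
  rw [isSemisimpleModule_iff]
  refine ⟨fun N => ?_⟩
  let U : Submodule K (Fin n → K) :=
    { carrier := {v | (rp r).asModuleEquiv.symm v ∈ N}
      add_mem' := fun {v w} hv hw => by
        rw [Set.mem_setOf_eq, map_add]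
        exact N.add_mem hv hw
      zero_mem' := by
        rw [Set.mem_setOf_eq, map_zero]
        exact N.zero_mem
      smul_mem' := fun c v hv => by
        rw [Set.mem_setOf_eq, Representation.asModuleEquiv_symm_map_smul]
        exact N.smul_mem _ hv }
  have hU : ∀ g, ∀ v ∈ U, (r g).mulVec v ∈ U := by
    intro g v hv
    change (rp r).asModuleEquiv.symm ((r g).mulVec v) ∈ N
    rw [← rp_apply, Representation.asModuleEquiv_symm_map_rho]
    exact N.smul_mem _ hv
  obtain ⟨U', hU', hc⟩ := exists_compl hr U hU
  let N' : Submodule (MonoidAlgebra K G) (rp r).asModule :=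
    { carrier := {x | (rp r).asModuleEquiv x ∈ U'}
      add_mem' := fun {v w} hv hw => by
        rw [Set.mem_setOf_eq, map_add]
        exact U'.add_mem hv hw
      zero_mem' := by
        rw [Set.mem_setOf_eq, map_zero]
        exact U'.zero_mem
      smul_mem' := fun a x hx => by
        rw [Set.mem_setOf_eq, Representation.asModuleEquiv_map_smul]
        exact alg_mem hU' a _ hx }
  refine ⟨N', ?_, ?_⟩
  · rw [Submodule.disjoint_def]
    intro x hx hx'
    have h1 : (rp r).asModuleEquiv x ∈ U := by
      change (rp r).asModuleEquiv.symm ((rp r).asModuleEquiv x) ∈ N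
      rwa [LinearEquiv.symm_apply_apply]
    have h2 := Submodule.disjoint_def.mp hc.disjoint _ h1 hx'
    exact (LinearEquiv.map_eq_zero_iff _).mp h2
  · rw [codisjoint_iff, Submodule.eq_top_iff']
    intro x
    have h1 : (rp r).asModuleEquiv x ∈ U ⊔ U' := by
      rw [codisjoint_iff.mp hc.codisjoint]
      exact Submodule.mem_top
    obtain ⟨y, hy, z, hz, hyz⟩ := Submodule.mem_sup.mp h1
    refine Submodule.mem_sup.mpr ⟨(rp r).asModuleEquiv.symm y, hy, (rp r).asModuleEquiv.symm z,
      ?_, ?_⟩
    · change (rp r).asModuleEquiv ((rp r).asModuleEquiv.symm z) ∈ U'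
      rwa [LinearEquiv.apply_symm_apply]
    · rw [← map_add, hyz, LinearEquiv.symm_apply_apply]

theorem tr_alg (r : G →* Matrix (Fin n) (Fin n) K) (a : MonoidAlgebra K G) :
    LinearMap.trace K (rp r).asModule (act (K := K) (rp r).asModule a) =
      LinearMap.trace K (Fin n → K) ((rp r).asAlgebraHom a) := by
  rw [← LinearMap.trace_conj' (act (K := K) (rp r).asModule a) (rp r).asModuleEquiv]
  congr 1

end

end SEM53

open SEM53 in
theorem st_SEM : ST_SEM := by
  intro G K _ _ _ n r s hr hs htr
  classical
  have h1 := semisimple hr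
  have h2 := semisimple hs
  have h3 : ∀ a : MonoidAlgebra K G, LinearMap.trace K (Fin n → K) ((rp r).asAlgebraHom a) =
      LinearMap.trace K (Fin n → K) ((rp s).asAlgebraHom a) := by
    intro a
    induction a using MonoidAlgebra.induction_on with
    | of g =>
      rw [Representation.asAlgebraHom_of, Representation.asAlgebraHom_of]
      have h4 := htr g
      rw [← Matrix.trace_toLin'_eq, ← Matrix.trace_toLin'_eq] at h4
      exact h4
    | add a b ha hb => rw [map_add, map_add, map_add, map_add, ha, hb]
    | smul c a ha => rw [map_smul, map_smul, map_smul, map_smul, ha]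
  obtain ⟨e⟩ := main (K := K) (A := MonoidAlgebra K G) _ (rp r).asModule (rp s).asModule le_rfl
    (fun a => by rw [tr_alg, tr_alg, h3])
  let ψ : (Fin n → K) ≃ₗ[K] (Fin n → K) :=
    (rp r).asModuleEquiv.symm.trans ((e.restrictScalars K).trans (rp s).asModuleEquiv)
  have hψ : ∀ g v, ψ ((r g).mulVec v) = (s g).mulVec (ψ v) := by
    intro g v
    change (rp s).asModuleEquiv (e ((rp r).asModuleEquiv.symm ((r g).mulVec v))) =
      (s g).mulVec ((rp s).asModuleEquiv (e ((rp r).asModuleEquiv.symm v)))
    rw [← rp_apply, Representation.asModuleEquiv_symm_map_rho, map_smul,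
      Representation.asModuleEquiv_map_smul, Representation.asAlgebraHom_of, rp_apply]
  refine ⟨⟨LinearMap.toMatrix' ψ.toLinearMap, LinearMap.toMatrix' ψ.symm.toLinearMap, ?_, ?_⟩, ?_⟩
  · rw [← LinearMap.toMatrix'_comp, ψ.comp_symm, LinearMap.toMatrix'_id]
  · rw [← LinearMap.toMatrix'_comp, ψ.symm_comp, LinearMap.toMatrix'_id]
  · intro g
    apply Matrix.ext_of_mulVec_single
    intro i'
    rw [← Matrix.mulVec_mulVec, ← Matrix.mulVec_mulVec]
    change (LinearMap.toMatrix' ψ.toLinearMap).mulVec _ =
      (s g).mulVec ((LinearMap.toMatrix' ψ.toLinearMap).mulVec _)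
    rw [LinearMap.toMatrix'_mulVec, LinearMap.toMatrix'_mulVec]
    exact hψ g _

end REC
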