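import Pool.Agent.Helper85.REC.Stmts11
import Pool.Agent.Helper53.REC.SEM

/-!
# CLF: Clifford's theorem
-/

set_option autoImplicit false

open scoped Classical

namespace REC

open MU

namespace CLF53

variable {G K : Type} [Group G] [Field K] {n : ℕ}

/-- complete reducibility from complements -/
theorem isSS_of_compl (r : G →* Matrix (Fin n) (Fin n) K)
    (h : ∀ W : Submodule K (Fin n → K), (∀ g, ∀ v ∈ W, (r g).mulVec v ∈ W) →
      ∃ W' : Submodule K (Fin n → K), (∀ g, ∀ v ∈ W', (r g).mulVec v ∈ W') ∧ IsCompl W W') :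
    IsSS r := by
  intro m B A hBA
  obtain ⟨⟨C₀, hC₀⟩, hBA⟩ := hBA
  obtain ⟨W', hW', hc⟩ := h (LinearMap.range B.mulVecLin) (by
    rintro g _ ⟨x, rfl⟩
    refine ⟨(A g).mulVec x, ?_⟩
    rw [Matrix.mulVecLin_apply, Matrix.mulVecLin_apply, Matrix.mulVec_mulVec, ← hBA,
      Matrix.mulVec_mulVec])
  have hdec : ∀ v : Fin n → K, ∃ (x : Fin m → K) (w : Fin n → K), w ∈ W' ∧ B.mulVec x + w = v := by
    intro v
    have h1 : v ∈ LinearMap.range B.mulVecLin ⊔ W' := by
      rw [hc.sup_eq_top]; exact Submodule.mem_top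
    obtain ⟨y, ⟨x, hx⟩, w, hw, hyw⟩ := Submodule.mem_sup.1 h1
    refine ⟨x, w, hw, ?_⟩
    rw [← hyw, ← hx]
    rfl
  let π : (Fin n → K) →ₗ[K] (Fin n → K) :=
    (LinearMap.range B.mulVecLin).subtype.comp (Submodule.projectionOnto _ W' hc)
  have hπ1 : ∀ x : Fin m → K, π (B.mulVec x) = B.mulVec x := by
    intro x
    show ((Submodule.projectionOnto _ W' hc (B.mulVec x) : LinearMap.range B.mulVecLin) :
      Fin n → K) = B.mulVec x
    have h1 : B.mulVec x = ((⟨B.mulVec x, x, rfl⟩ : LinearMap.range B.mulVecLin) : Fin n → K) := rfl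
    rw [h1, Submodule.projectionOnto_apply_left]
  have hπ2 : ∀ w ∈ W', π w = 0 := by
    intro w hw
    show ((Submodule.projectionOnto _ W' hc w : LinearMap.range B.mulVecLin) :
      Fin n → K) = 0
    have h1 : w = ((⟨w, hw⟩ : W') : Fin n → K) := rfl
    rw [h1, Submodule.projectionOnto_apply_right]
    rfl
  have hCv : ∀ (x : Fin m → K) (w : Fin n → K), w ∈ W' →
      (C₀ * LinearMap.toMatrix' π).mulVec (B.mulVec x + w) = x := by
    intro x w hw
    rw [← Matrix.mulVec_mulVec, LinearMap.toMatrix'_mulVec, map_add, hπ1, hπ2 w hw, add_zero,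
      Matrix.mulVec_mulVec, hC₀, Matrix.one_mulVec]
  refine ⟨C₀ * LinearMap.toMatrix' π, ?_, fun g => ?_⟩
  · apply Matrix.mulVec_injective
    ext x : 1
    have h1 := hCv x 0 W'.zero_mem
    rw [add_zero, Matrix.mulVec_mulVec] at h1
    rw [h1, Matrix.one_mulVec]
  · apply Matrix.mulVec_injective
    ext v : 1
    obtain ⟨x, w, hw, rfl⟩ := hdec v
    have h1 : (r g).mulVec (B.mulVec x + w) = B.mulVec ((A g).mulVec x) + (r g).mulVec w := by
      rw [Matrix.mulVec_add, Matrix.mulVec_mulVec, hBA, Matrix.mulVec_mulVec]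
    show (C₀ * LinearMap.toMatrix' π * r g).mulVec _ = (A g * (C₀ * LinearMap.toMatrix' π)).mulVec _
    rw [← Matrix.mulVec_mulVec, h1, hCv _ _ (hW' g w hw), ← Matrix.mulVec_mulVec (M := A g),
      hCv x w hw]

/-- complements if the minimal stable subspaces span -/
theorem compl_of_min (st : Submodule K (Fin n → K) → Prop) (hbot : st ⊥)
    (hsup : ∀ W W', st W → st W' → st (W ⊔ W')) (hinf : ∀ W W', st W → st W' → st (W ⊓ W'))
    (htop : sSup {P : Submodule K (Fin n → K) | st P ∧ ∀ W ≤ P, st W → W = ⊥ ∨ W = P} = ⊤)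
    (W : Submodule K (Fin n → K)) (hW : st W) :
    ∃ W' : Submodule K (Fin n → K), st W' ∧ IsCompl W W' := by
  obtain ⟨W', ⟨hW', hdis⟩, hmax⟩ := (wellFounded_gt :
    WellFounded ((· > ·) : Submodule K (Fin n → K) → _ → Prop)).has_min
      {W' | st W' ∧ Disjoint W W'} ⟨⊥, hbot, disjoint_bot_right⟩
  refine ⟨W', hW', hdis, ?_⟩
  rw [codisjoint_iff, eq_top_iff, ← htop]
  refine sSup_le ?_
  rintro P ⟨hP, hPm⟩
  by_contra hnot
  rcases hPm (P ⊓ (W ⊔ W')) inf_le_left (hinf _ _ hP (hsup _ _ hW hW')) with h1 | h1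
  · have h2 : Disjoint W (W' ⊔ P) :=
      hdis.disjoint_sup_right_of_disjoint_sup_left (disjoint_iff.2 (by rw [inf_comm]; exact h1))
    have h3 := hmax (W' ⊔ P) ⟨hsup _ _ hW' hP, h2⟩
    apply h3
    refine lt_of_le_of_ne le_sup_left ?_
    intro h4
    apply hnot
    have h5 : P ≤ W' := by rw [h4]; exact le_sup_right
    exact h5.trans le_sup_right
  · apply hnot
    rw [← h1]
    exact inf_le_right

end CLF53

open CLF53 in
theorem st_CLF : ST_CLF := by
  intro G H K _ _ _ φ n r hN hr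
  apply isSS_of_compl
  set st : Submodule K (Fin n → K) → Prop := fun W => ∀ h, ∀ v ∈ W, ((r.comp φ) h).mulVec v ∈ W
    with hst
  have hinv : ∀ (g : G) (v : Fin n → K), (r g).mulVec ((r g⁻¹).mulVec v) = v := by
    intro g v
    rw [Matrix.mulVec_mulVec, ← map_mul, mul_inv_cancel, map_one, Matrix.one_mulVec]
  have hinv' : ∀ (g : G) (v : Fin n → K), (r g⁻¹).mulVec ((r g).mulVec v) = v := by
    intro g v
    rw [Matrix.mulVec_mulVec, ← map_mul, inv_mul_cancel, map_one, Matrix.one_mulVec]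
  have hmapst : ∀ (g : G) (W : Submodule K (Fin n → K)), st W → st (W.map (r g).mulVecLin) := by
    intro g W hW h v hv
    obtain ⟨w, hw, rfl⟩ := Submodule.mem_map.1 hv
    obtain ⟨h', hh'⟩ : ∃ h', φ h' = g⁻¹ * φ h * g := by
      have := hN.conj_mem (φ h) ⟨h, rfl⟩ g⁻¹
      rw [inv_inv] at this
      exact this
    refine Submodule.mem_map.2 ⟨((r.comp φ) h').mulVec w, hW h' w hw, ?_⟩
    rw [Matrix.mulVecLin_apply, Matrix.mulVecLin_apply, Matrix.mulVec_mulVec, Matrix.mulVec_mulVec,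
      MonoidHom.comp_apply, MonoidHom.comp_apply, hh', ← map_mul, ← map_mul]
    congr 2
    group
  have hmapmap : ∀ (g : G) (W : Submodule K (Fin n → K)),
      (W.map (r g⁻¹).mulVecLin).map (r g).mulVecLin = W := by
    intro g W
    ext v
    constructor
    · intro hv
      obtain ⟨w, hw, rfl⟩ := Submodule.mem_map.1 hv
      obtain ⟨u, hu, rfl⟩ := Submodule.mem_map.1 hw
      rw [Matrix.mulVecLin_apply, Matrix.mulVecLin_apply, hinv]
      exact hu
    · intro hv
      refine Submodule.mem_map.2 ⟨(r g⁻¹).mulVec v, Submodule.mem_map.2 ⟨v, hv, rfl⟩, ?_⟩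
      rw [Matrix.mulVecLin_apply, hinv]
  have hmapmap' : ∀ (g : G) (W : Submodule K (Fin n → K)),
      (W.map (r g).mulVecLin).map (r g⁻¹).mulVecLin = W := by
    intro g W
    have := hmapmap g⁻¹ W
    rwa [inv_inv] at this
  set U := sSup {P : Submodule K (Fin n → K) | st P ∧ ∀ W ≤ P, st W → W = ⊥ ∨ W = P} with hU
  have hUG : ∀ g, ∀ v ∈ U, (r g).mulVec v ∈ U := by
    intro g
    have h1 : U ≤ U.comap (r g).mulVecLin := by
      refine sSup_le ?_
      rintro P ⟨hP, hPm⟩
      rw [← Submodule.map_le_iff_le_comap]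
      refine le_sSup ⟨hmapst g P hP, ?_⟩
      intro W hWP hW
      have h3 := Submodule.map_mono (f := (r g⁻¹).mulVecLin) hWP
      rw [hmapmap'] at h3
      rcases hPm (W.map (r g⁻¹).mulVecLin) h3 (hmapst g⁻¹ W hW) with h2 | h2
      · left
        have h3 := hmapmap g W
        rw [h2, Submodule.map_bot] at h3
        exact h3.symm
      · right
        have h3 := hmapmap g W
        rw [h2] at h3
        exact h3.symm
    intro v hv
    exact h1 hv
  have hUtop : U = ⊤ := by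
    obtain ⟨U', hU', hc⟩ := SEM53.exists_compl hr U hUG
    have h0 : U' = ⊥ := by
      by_contra hne
      obtain ⟨P, ⟨hP, hPne, hPU⟩, hmin⟩ := (wellFounded_lt :
        WellFounded ((· < ·) : Submodule K (Fin n → K) → _ → Prop)).has_min
          {P | st P ∧ P ≠ ⊥ ∧ P ≤ U'} ⟨U', fun h v hv => hU' (φ h) v hv, hne, le_refl _⟩
      apply hPne
      rw [eq_bot_iff, ← hc.inf_eq_bot]
      refine le_inf (le_sSup ⟨hP, fun W hWP hW => ?_⟩) hPU
      by_cases hWb : W = ⊥
      · exact Or.inl hWb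
      · right
        by_contra hne'
        exact hmin W ⟨hW, hWb, hWP.trans hPU⟩ (lt_of_le_of_ne hWP hne')
    have h1 := hc.sup_eq_top
    rwa [h0, sup_bot_eq] at h1
  intro W hW
  refine compl_of_min st ?_ ?_ ?_ hUtop W hW
  · intro h v hv
    rw [Submodule.mem_bot] at hv ⊢
    rw [hv, Matrix.mulVec_zero]
  · intro W W' hW hW' h v hv
    obtain ⟨a, ha, b, hb, rfl⟩ := Submodule.mem_sup.1 hv
    rw [Matrix.mulVec_add]
    exact Submodule.add_mem_sup (hW h a ha) (hW' h b hb)
  · intro W W' hW hW' h v hv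
    exact ⟨hW h v hv.1, hW' h v hv.2⟩

end REC
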