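import Pool.Agent.Helper85.REC.Stmts11
import Pool.Agent.Helper53.REC.SEM

/-!
# Commutative completely reducible representations are diagonalizable
-/

set_option autoImplicit false

open scoped Classical
open Polynomial

namespace REC

open MU

namespace Dg53

/-- stable subspaces are stable under polynomials -/
theorem aeval_mem {K : Type} [Field K] {n : ℕ} (a : Matrix (Fin n) (Fin n) K)
    (W : Submodule K (Fin n → K)) (h : ∀ v ∈ W, a.mulVec v ∈ W) (q : K[X]) (v : Fin n → K)
    (hv : v ∈ W) : (aeval a q).mulVec v ∈ W := by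
  have hpow : ∀ (m : ℕ) (v : Fin n → K), v ∈ W → (a ^ m).mulVec v ∈ W := by
    intro m
    induction m with
    | zero => intro v hv; rw [pow_zero, Matrix.one_mulVec]; exact hv
    | succ m ih =>
      intro v hv
      rw [pow_succ, ← Matrix.mulVec_mulVec]
      exact ih _ (h v hv)
  induction q using Polynomial.induction_on' with
  | add p q hp hq => rw [map_add, Matrix.add_mulVec]; exact W.add_mem hp hq
  | monomial m c =>
    rw [aeval_monomial, ← Matrix.mulVec_mulVec, Algebra.algebraMap_eq_smul_one, Matrix.smul_mulVec,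
      Matrix.one_mulVec]
    exact W.smul_mem _ (hpow m v hv)

theorem aeval_comm {K : Type} [Field K] {n : ℕ} (a b : Matrix (Fin n) (Fin n) K)
    (h : a * b = b * a) (q : K[X]) : aeval a q * b = b * aeval a q := by
  induction q using Polynomial.induction_on' with
  | add p q hp hq => rw [map_add, add_mul, mul_add, hp, hq]
  | monomial m c =>
    have h1 : Commute (a ^ m) b := (show Commute a b from h).pow_left m
    rw [aeval_monomial, Algebra.algebraMap_eq_smul_one, Matrix.smul_mul, Matrix.smul_mul,
      Matrix.one_mul, Matrix.mul_smul, h1.eq]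

/-- commuting nilpotent matrices which preserve the stable subspaces vanish -/
theorem red {G K : Type} [Group G] [Field K] {n : ℕ} {r : G →* Matrix (Fin n) (Fin n) K}
    (hr : IsSS r) (N : Matrix (Fin n) (Fin n) K) (hN : ∀ g, N * r g = r g * N)
    (hst : ∀ W : Submodule K (Fin n → K), (∀ g, ∀ v ∈ W, (r g).mulVec v ∈ W) →
      ∀ v ∈ W, N.mulVec v ∈ W) (k : ℕ) (hk : N ^ k = 0) : N = 0 := by
  obtain ⟨W', hW', hc⟩ := SEM53.exists_compl hr (LinearMap.ker N.mulVecLin) (by
    intro g v hv
    rw [LinearMap.mem_ker, Matrix.mulVecLin_apply] at hv ⊢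
    rw [Matrix.mulVec_mulVec, hN, ← Matrix.mulVec_mulVec, hv, Matrix.mulVec_zero])
  have h1 : ∀ (j : ℕ) (v : Fin n → K), v ∈ W' → (N ^ j).mulVec v = 0 → v = 0 := by
    intro j
    induction j with
    | zero => intro v _ hv; rwa [pow_zero, Matrix.one_mulVec] at hv
    | succ j ih =>
      intro v hv hv'
      rw [pow_succ, ← Matrix.mulVec_mulVec] at hv'
      have h2 := ih _ (hst W' hW' v hv) hv'
      exact (Submodule.disjoint_def.1 hc.disjoint) v h2 hv
  have h2 : W' = ⊥ := by
    rw [eq_bot_iff]
    intro v hv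
    exact h1 k v hv (by rw [hk, Matrix.zero_mulVec])
  have h3 : LinearMap.ker N.mulVecLin = ⊤ := by
    have := hc.sup_eq_top
    rwa [h2, sup_bot_eq] at this
  apply Matrix.mulVec_injective
  ext v : 1
  have h4 : v ∈ LinearMap.ker N.mulVecLin := by rw [h3]; exact Submodule.mem_top
  rw [Matrix.zero_mulVec]
  exact h4

theorem red_aeval {G K : Type} [Group G] [Field K] {n : ℕ} {r : G →* Matrix (Fin n) (Fin n) K}
    (hr : IsSS r) (hc : ∀ g g', r g * r g' = r g' * r g) (g : G) (q : K[X]) (k : ℕ)
    (hk : (aeval (r g) q) ^ k = 0) : aeval (r g) q = 0 := by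
  refine red hr _ (fun g' => ?_) (fun W hW v hv => aeval_mem _ W (hW g) q v hv) k hk
  exact aeval_comm _ _ (hc g g') q

theorem minpoly_squarefree {G K : Type} [Group G] [Field K] {n : ℕ}
    {r : G →* Matrix (Fin n) (Fin n) K} (hr : IsSS r) (hc : ∀ g g', r g * r g' = r g' * r g)
    (g : G) : Squarefree (minpoly K (r g)) := by
  have hint : IsIntegral K (r g) := Matrix.isIntegral _
  intro x hx
  obtain ⟨y, hy⟩ := hx
  have h1 : aeval (r g) (x * y) ^ 2 = 0 := by
    rw [pow_two, ← map_mul]
    have h2 : x * y * (x * y) = minpoly K (r g) * y := by rw [hy]; ring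
    rw [h2, map_mul, minpoly.aeval, zero_mul]
  have h3 := minpoly.dvd K (r g) (red_aeval hr hc g _ 2 h1)
  rw [hy] at h3
  have hne : x * y ≠ 0 := by
    intro h0
    apply minpoly.ne_zero hint
    rw [hy, mul_assoc, h0, mul_zero]
  have h4 : x * (x * y) ∣ 1 * (x * y) := by rwa [one_mul, ← mul_assoc]
  exact isUnit_of_dvd_one ((mul_dvd_mul_iff_right hne).1 h4)

/-- simultaneous diagonalization -/
theorem sim_diag {L : Type} [Field L] [IsAlgClosed L] {ι : Type} {n : ℕ}
    (M : ι → Matrix (Fin n) (Fin n) L) (hc : ∀ i j, M i * M j = M j * M i)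
    (hq : ∀ i, ∃ q : L[X], Squarefree q ∧ aeval (M i) q = 0) :
    ∃ (P P' : Matrix (Fin n) (Fin n) L) (d : ι → Fin n → L), P * P' = 1 ∧ P' * P = 1 ∧
      ∀ i, M i = P * Matrix.diagonal (d i) * P' := by
  let f : ι → Module.End L (Fin n → L) := fun i => Matrix.toLinAlgEquiv' (M i)
  have hf : ∀ i v, f i v = (M i).mulVec v := fun i v => rfl
  have hfc : ∀ i j, Commute (f i) (f j) := by
    intro i j
    show f i * f j = f j * f i
    rw [← map_mul, ← map_mul, hc]
  have hss : ∀ i, (f i).IsSemisimple := by
    intro i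
    obtain ⟨q, hq1, hq2⟩ := hq i
    refine Module.End.isSemisimple_of_squarefree_aeval_eq_zero hq1 ?_
    have h1 := aeval_algHom_apply (Matrix.toLinAlgEquiv' (R := L) (n := Fin n)).toAlgHom (M i) q
    rw [hq2, map_zero] at h1
    exact h1
  have htop := Module.End.iSup_iInf_maxGenEigenspace_eq_top_of_iSup_maxGenEigenspace_eq_top_of_commute
    f (fun i j _ => hfc i j) (fun i => Module.End.iSup_maxGenEigenspace_eq_top (f i))
  let X : Set (Fin n → L) := {v | ∀ i, ∃ c : L, (M i).mulVec v = c • v}
  have hspan : ⊤ ≤ Submodule.span L X := by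
    rw [← htop]
    refine iSup_le fun χ => ?_
    intro v hv
    apply Submodule.subset_span
    intro i
    refine ⟨χ i, ?_⟩
    have h1 : v ∈ (f i).maxGenEigenspace (χ i) := (Submodule.mem_iInf _).1 hv i
    rw [(Module.End.isFinitelySemisimple_iff_isSemisimple.2 (hss i)).maxGenEigenspace_eq_eigenspace,
      Module.End.mem_eigenspace_iff] at h1
    exact h1
  let b₀ := Module.Basis.ofSpan hspan
  have hfin : Finite _ := Module.Finite.finite_basis b₀
  have hft := Fintype.ofFinite (↥((linearIndepOn_empty L id).extend (Set.empty_subset X)))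
  have hcard : Fintype.card (↥((linearIndepOn_empty L id).extend (Set.empty_subset X))) = n := by
    rw [← Module.finrank_eq_card_basis b₀]
    simp
  let b : Module.Basis (Fin n) L (Fin n → L) := b₀.reindex (Fintype.equivFinOfCardEq hcard)
  have hbX : ∀ j, b j ∈ X := by
    intro j
    apply Module.Basis.ofSpan_subset hspan
    rw [Module.Basis.reindex_apply]
    exact ⟨_, rfl⟩
  choose d hd using fun (i : ι) (j : Fin n) => hbX j i
  let P : Matrix (Fin n) (Fin n) L := (Pi.basisFun L (Fin n)).toMatrix b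
  let P' : Matrix (Fin n) (Fin n) L := b.toMatrix (Pi.basisFun L (Fin n))
  have hPP : P * P' = 1 := Module.Basis.toMatrix_mul_toMatrix_flip _ _
  have hPP' : P' * P = 1 := Module.Basis.toMatrix_mul_toMatrix_flip _ _
  refine ⟨P, P', d, hPP, hPP', fun i => ?_⟩
  have h1 : M i * P = P * Matrix.diagonal (d i) := by
    ext k j
    rw [Matrix.mul_diagonal]
    have h2 := congrFun (hd i j) k
    rw [Pi.smul_apply, smul_eq_mul, mul_comm] at h2
    rw [Matrix.mul_apply]
    exact h2
  rw [← h1, mul_assoc, hPP, mul_one]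

/-- commutative completely reducible representations are diagonalizable -/
theorem diag_all {G K L : Type} [Group G] [Field K] [CharZero K] [Field L] [IsAlgClosed L]
    [Algebra K L] {n : ℕ} {r : G →* Matrix (Fin n) (Fin n) K} (hr : IsSS r)
    (hc : ∀ g g', r g * r g' = r g' * r g) :
    ∃ (P P' : Matrix (Fin n) (Fin n) L) (d : G → Fin n → L), P * P' = 1 ∧ P' * P = 1 ∧
      ∀ g, (r g).map (algebraMap K L) = P * Matrix.diagonal (d g) * P' := by
  refine sim_diag (fun g => (r g).map (algebraMap K L)) (fun g g' => ?_) (fun g => ?_)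
  · show (r g).map (algebraMap K L) * (r g').map (algebraMap K L) = _
    rw [← Matrix.map_mul, hc, Matrix.map_mul]
  · refine ⟨(minpoly K (r g)).map (algebraMap K L), ?_, ?_⟩
    · have h1 : (minpoly K (r g)).Separable :=
        PerfectField.separable_iff_squarefree.2 (minpoly_squarefree hr hc g)
      exact (h1.map (f := algebraMap K L)).squarefree
    · rw [aeval_map_algebraMap]
      have h2 : (r g).map (algebraMap K L) = (Algebra.ofId K L).mapMatrix (r g) := rfl
      rw [h2, aeval_algHom_apply, minpoly.aeval, map_zero]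

/-- the eigenvalues of a diagonalized matrix -/
theorem aroots_diag {K L : Type} [Field K] [Field L] [Algebra K L] {n : ℕ}
    {A : Matrix (Fin n) (Fin n) K} {P P' : Matrix (Fin n) (Fin n) L} {d : Fin n → L}
    (hP : P * P' = 1) (hA : A.map (algebraMap K L) = P * Matrix.diagonal d * P') :
    A.charpoly.aroots L = Finset.univ.val.map d := by
  have h1 : (A.map (algebraMap K L)).charpoly = (Matrix.diagonal d).charpoly := by
    rw [hA]
    have h2 := Matrix.charpoly_units_conj (⟨P, P', hP, mul_eq_one_comm.1 hP⟩ :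
      (Matrix (Fin n) (Fin n) L)ˣ) (Matrix.diagonal d)
    have h3 : (((⟨P, P', hP, mul_eq_one_comm.1 hP⟩ : (Matrix (Fin n) (Fin n) L)ˣ)⁻¹ :
      (Matrix (Fin n) (Fin n) L)ˣ) : Matrix (Fin n) (Fin n) L) = P' := rfl
    rw [← Matrix.coe_units_inv, h3] at h2
    exact h2
  have h3 : (Matrix.diagonal d).charpoly = ∏ i, (Polynomial.X - C (d i)) := by
    rw [Matrix.charpoly, Matrix.charmatrix]
    have h4 : Matrix.scalar (Fin n) (Polynomial.X : L[X]) - C.mapMatrix (Matrix.diagonal d) =
        Matrix.diagonal fun i => Polynomial.X - C (d i) := by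
      ext i j
      by_cases hij : i = j
      · subst hij; simp
      · simp [hij, Matrix.diagonal_apply_ne]
    rw [h4, Matrix.det_diagonal]
  rw [aroots, ← Matrix.charpoly_map, h1, h3, ← roots_multiset_prod_X_sub_C (Finset.univ.val.map d),
    Multiset.map_map]
  rfl

end Dg53

end REC
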