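import Pool.Agent.Helper85.REC.Stmts10
import Pool.Agent.Helper53.REC.SEM

/-!
# LTS: finitely many classes of stable lattices in a completely reducible representation
-/

set_option autoImplicit false

open scoped Classical

namespace REC

open MU

namespace LTS53

section

variable {l : ℕ} [Fact l.Prime] {n : ℕ}

/-- the lattice `g ℤ_l^n` -/
noncomputable def lat (g : Matrix (Fin n) (Fin n) ℚ_[l]) : Submodule ℤ_[l] (Fin n → ℚ_[l]) :=
  LinearMap.range (((Matrix.mulVecLin g).restrictScalars ℤ_[l]).comp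
    (LinearMap.compLeft (Algebra.linearMap ℤ_[l] ℚ_[l]) (Fin n)))

/-- an integral vector, as a rational one -/
noncomputable def emb (z : Fin n → ℤ_[l]) : Fin n → ℚ_[l] := fun i => algebraMap ℤ_[l] ℚ_[l] (z i)

theorem mem_lat (g : Matrix (Fin n) (Fin n) ℚ_[l]) (x : Fin n → ℚ_[l]) :
    x ∈ lat g ↔ ∃ z : Fin n → ℤ_[l], g.mulVec (emb z) = x := by
  unfold lat
  rw [LinearMap.mem_range]
  rfl

theorem lat_fg (g : Matrix (Fin n) (Fin n) ℚ_[l]) : (lat g).FG := by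
  unfold lat
  rw [LinearMap.range_eq_map]
  exact Submodule.FG.map _ Module.Finite.fg_top

theorem emb_single (j : Fin n) : emb (l := l) (Pi.single j 1) = Pi.single j 1 := by
  ext i
  unfold emb
  by_cases hij : i = j
  · subst hij; simp
  · simp [Pi.single_eq_of_ne hij]

theorem emb_mulVec (M : Matrix (Fin n) (Fin n) ℤ_[l]) (z : Fin n → ℤ_[l]) :
    emb (M.mulVec z) = (M.map (algebraMap ℤ_[l] ℚ_[l])).mulVec (emb z) := by
  ext i
  simp only [emb, Matrix.mulVec, dotProduct, Matrix.map_apply, map_sum, map_mul]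

theorem col (g t : Matrix (Fin n) (Fin n) ℚ_[l]) (h : lat g ≤ lat t) :
    ∃ z : Matrix (Fin n) (Fin n) ℤ_[l], g = t * z.map (algebraMap ℤ_[l] ℚ_[l]) := by
  have h1 : ∀ j : Fin n, ∃ z : Fin n → ℤ_[l], t.mulVec (emb z) = g.mulVec (Pi.single j 1) := by
    intro j
    have h2 : g.mulVec (Pi.single j 1) ∈ lat g := by
      rw [mem_lat]
      exact ⟨Pi.single j 1, by rw [emb_single]⟩
    exact (mem_lat _ _).1 (h h2)
  choose z hz using h1
  refine ⟨Matrix.of (fun i j => z j i), ?_⟩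
  ext i j
  have h3 := congrFun (hz j) i
  rw [Matrix.mulVec_single_one] at h3
  simp only [Matrix.col_apply] at h3
  rw [← h3, Matrix.mul_apply]
  rfl

theorem unit (g t : Matrix.GeneralLinearGroup (Fin n) ℚ_[l])
    (h : lat (g : Matrix (Fin n) (Fin n) ℚ_[l]) = lat (t : Matrix (Fin n) (Fin n) ℚ_[l])) :
    ∃ u : Matrix.GeneralLinearGroup (Fin n) ℤ_[l], (g : Matrix (Fin n) (Fin n) ℚ_[l]) =
      t * (u : Matrix (Fin n) (Fin n) ℤ_[l]).map (algebraMap ℤ_[l] ℚ_[l]) := by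
  obtain ⟨z, hz⟩ := col _ _ h.le
  obtain ⟨z', hz'⟩ := col _ _ h.ge
  have h1 : (t : Matrix (Fin n) (Fin n) ℚ_[l]) * ((z * z').map (algebraMap ℤ_[l] ℚ_[l])) = t * 1 := by
    rw [Matrix.map_mul, ← mul_assoc, ← hz, mul_one]
    exact hz'.symm
  have h2 : (z * z').map (algebraMap ℤ_[l] ℚ_[l]) = (1 : Matrix (Fin n) (Fin n) ℚ_[l]) := by
    have := congrArg (fun y => ((t⁻¹ : Matrix.GeneralLinearGroup (Fin n) ℚ_[l]) :
      Matrix (Fin n) (Fin n) ℚ_[l]) * y) h1
    simpa [← mul_assoc] using this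
  have h3 : z * z' = 1 := by
    have h4 : (z * z').map (algebraMap ℤ_[l] ℚ_[l]) =
        (1 : Matrix (Fin n) (Fin n) ℤ_[l]).map (algebraMap ℤ_[l] ℚ_[l]) := by
      rw [h2]
      simp
    exact Matrix.map_injective (IsFractionRing.injective ℤ_[l] ℚ_[l]) h4
  exact ⟨⟨z, z', h3, mul_eq_one_comm.1 h3⟩, hz⟩

theorem span_lat (g : Matrix.GeneralLinearGroup (Fin n) ℚ_[l]) :
    Submodule.span ℚ_[l] (lat (g : Matrix (Fin n) (Fin n) ℚ_[l]) : Set (Fin n → ℚ_[l])) = ⊤ := by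
  rw [eq_top_iff]
  intro x _
  obtain ⟨y, hy⟩ : ∃ y : Fin n → ℚ_[l], (g : Matrix (Fin n) (Fin n) ℚ_[l]).mulVec y = x := by
    refine ⟨((g⁻¹ : Matrix.GeneralLinearGroup (Fin n) ℚ_[l]) :
      Matrix (Fin n) (Fin n) ℚ_[l]).mulVec x, ?_⟩
    rw [Matrix.mulVec_mulVec]
    simp
  have h1 : (g : Matrix (Fin n) (Fin n) ℚ_[l]).mulVec y =
      ∑ j, y j • (g : Matrix (Fin n) (Fin n) ℚ_[l]).mulVec (Pi.single j 1) := by
    conv_lhs => rw [← Finset.univ_sum_single y]
    rw [Matrix.mulVec_sum]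
    refine Finset.sum_congr rfl fun j _ => ?_
    rw [← Matrix.mulVec_smul]
    congr 1
    rw [← Pi.single_smul]
    simp
  rw [← hy, h1]
  refine Submodule.sum_mem _ fun j _ => Submodule.smul_mem _ _ (Submodule.subset_span ?_)
  show _ ∈ lat (g : Matrix (Fin n) (Fin n) ℚ_[l])
  rw [mem_lat]
  exact ⟨Pi.single j 1, by rw [emb_single]⟩

theorem map_lat (a g : Matrix (Fin n) (Fin n) ℚ_[l])
    (f : (Fin n → ℚ_[l]) ≃ₗ[ℚ_[l]] (Fin n → ℚ_[l])) (hf : ∀ x, f x = a.mulVec x) :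
    (lat g).map ((f : (Fin n → ℚ_[l]) →ₗ[ℚ_[l]] (Fin n → ℚ_[l])).restrictScalars ℤ_[l]) =
      lat (a * g) := by
  ext x
  rw [Submodule.mem_map, mem_lat]
  constructor
  · rintro ⟨y, hy, rfl⟩
    obtain ⟨z, rfl⟩ := (mem_lat _ _).1 hy
    refine ⟨z, ?_⟩
    show _ = f _
    rw [hf, Matrix.mulVec_mulVec]
  · rintro ⟨z, rfl⟩
    refine ⟨g.mulVec (emb z), (mem_lat _ _).2 ⟨z, rfl⟩, ?_⟩
    show f _ = _
    rw [hf, Matrix.mulVec_mulVec]

theorem lat_unit (t : Matrix (Fin n) (Fin n) ℚ_[l]) (u : Matrix.GeneralLinearGroup (Fin n) ℤ_[l]) :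
    lat (t * (u : Matrix (Fin n) (Fin n) ℤ_[l]).map (algebraMap ℤ_[l] ℚ_[l])) = lat t := by
  ext x
  rw [mem_lat, mem_lat]
  constructor
  · rintro ⟨z, rfl⟩
    refine ⟨(u : Matrix (Fin n) (Fin n) ℤ_[l]).mulVec z, ?_⟩
    rw [emb_mulVec, Matrix.mulVec_mulVec]
  · rintro ⟨z, rfl⟩
    refine ⟨((u⁻¹ : Matrix.GeneralLinearGroup (Fin n) ℤ_[l]) :
      Matrix (Fin n) (Fin n) ℤ_[l]).mulVec z, ?_⟩
    rw [← Matrix.mulVec_mulVec, ← emb_mulVec, Matrix.mulVec_mulVec]
    simp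

/-- finite quotients -/
theorem fin_quot (a : ℤ_[l]) (ha : a ≠ 0) : Finite (ℤ_[l] ⧸ Ideal.span {a}) := by
  obtain ⟨u, hu⟩ : ∃ u : ℤ_[l]ˣ, a = u * (l : ℤ_[l]) ^ a.valuation :=
    ⟨PadicInt.unitCoeff ha, PadicInt.unitCoeff_spec ha⟩
  have h1 : Ideal.span {a} = Ideal.span {(l : ℤ_[l]) ^ a.valuation} := by
    rw [Ideal.span_singleton_eq_span_singleton]
    refine ⟨u⁻¹, ?_⟩
    conv_lhs => rw [hu]
    rw [mul_comm, ← mul_assoc, Units.inv_mul, one_mul]
  rw [h1, ← PadicInt.ker_toZModPow]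
  have : NeZero (l ^ a.valuation) := ⟨pow_ne_zero _ (Fact.out : l.Prime).ne_zero⟩
  exact Finite.of_injective _ (RingHom.kerLift_injective (PadicInt.toZModPow (p := l) a.valuation))

end

section

variable {l : ℕ} [Fact l.Prime] {G V : Type} [Group G] [AddCommGroup V] [Module ℚ_[l] V]
  [Module ℤ_[l] V] [IsScalarTower ℤ_[l] ℚ_[l] V] [FiniteDimensional ℚ_[l] V]

/-- the integral representation on a stable lattice -/
theorem integral_rep (ρ : G →* Module.End ℚ_[l] V) (L : Submodule ℤ_[l] V) (hfg : L.FG)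
    (hsp : Submodule.span ℚ_[l] (L : Set V) = ⊤) (hL : ∀ g, ∀ v ∈ L, ρ g v ∈ L) :
    ∃ (B : Module.Basis (Fin (Module.finrank ℚ_[l] V)) ℚ_[l] V)
      (A : G →* Matrix.GeneralLinearGroup (Fin (Module.finrank ℚ_[l] V)) ℤ_[l]),
      Submodule.span ℤ_[l] (Set.range B) = L ∧ ∀ g, rat A g = LinearMap.toMatrix B B (ρ g) := by
  have hlat : Submodule.IsLattice ℚ_[l] L := ⟨hfg, hsp⟩
  have hfree : Module.Free ℤ_[l] L := Submodule.IsLattice.free ℚ_[l] L
  have hfin : Module.Finite ℤ_[l] L := Module.Finite.iff_fg.2 hfg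
  have hrk : Module.finrank ℤ_[l] L = Module.finrank ℚ_[l] V :=
    Module.finrank_eq_of_rank_eq ((Submodule.IsLattice.rank' ℚ_[l] L).trans
      (Module.finrank_eq_rank ℚ_[l] V).symm)
  let b : Module.Basis (Fin (Module.finrank ℚ_[l] V)) ℤ_[l] L :=
    (Module.finBasis ℤ_[l] L).reindex (finCongr hrk)
  let B := b.extendOfIsLattice ℚ_[l]
  have hB : ∀ j, B j = (b j : V) := fun j => Module.Basis.extendOfIsLattice_apply _ _ _
  have hspan : Submodule.span ℤ_[l] (Set.range B) = L := by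
    have h1 : (Set.range B) = L.subtype '' (Set.range b) := by
      rw [← Set.range_comp]
      congr 1
      ext j
      exact hB j
    rw [h1, ← Submodule.map_span, b.span_eq, Submodule.map_top, Submodule.range_subtype]
  let M : G → Matrix (Fin (Module.finrank ℚ_[l] V)) (Fin (Module.finrank ℚ_[l] V)) ℤ_[l] :=
    fun g => Matrix.of fun i j => b.repr ⟨ρ g (b j), hL g _ (b j).2⟩ i
  have hM : ∀ g, (M g).map (algebraMap ℤ_[l] ℚ_[l]) = LinearMap.toMatrix B B (ρ g) := by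
    intro g
    ext i j
    rw [LinearMap.toMatrix_apply, Matrix.map_apply]
    have h1 : ρ g (B j) = ∑ k, algebraMap ℤ_[l] ℚ_[l] (b.repr ⟨ρ g (b j), hL g _ (b j).2⟩ k) • B k := by
      have h2 := congrArg (fun v : L => (v : V)) (b.sum_repr ⟨ρ g (b j), hL g _ (b j).2⟩)
      simp only [Submodule.coe_sum, Submodule.coe_smul] at h2
      rw [hB j]
      conv_lhs => rw [← h2]
      refine Finset.sum_congr rfl fun k _ => ?_
      rw [hB k, algebraMap_smul]
    rw [h1, map_sum]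
    simp only [map_smul, Module.Basis.repr_self, Finsupp.smul_single, smul_eq_mul, mul_one]
    rw [Finsupp.finsetSum_apply]
    simp [M, Finsupp.single_apply]
  have hinj : Function.Injective (fun X : Matrix (Fin (Module.finrank ℚ_[l] V))
      (Fin (Module.finrank ℚ_[l] V)) ℤ_[l] => X.map (algebraMap ℤ_[l] ℚ_[l])) :=
    Matrix.map_injective (IsFractionRing.injective ℤ_[l] ℚ_[l])
  let Mh : G →* Matrix (Fin (Module.finrank ℚ_[l] V)) (Fin (Module.finrank ℚ_[l] V)) ℤ_[l] :=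
    { toFun := M
      map_one' := by
        apply hinj
        show (M 1).map _ = Matrix.map 1 _
        rw [hM, map_one, Matrix.map_one _ (map_zero _) (map_one _)]
        exact LinearMap.toMatrix_one B
      map_mul' := fun g h => by
        apply hinj
        show (M (g * h)).map _ = Matrix.map (M g * M h) _
        rw [hM, map_mul, Matrix.map_mul, hM, hM]
        exact LinearMap.toMatrix_mul B (ρ g) (ρ h) }
  refine ⟨B, Mh.toHomUnits, hspan, fun g => ?_⟩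
  rw [← hM]
  rfl

/-- the irreducible case -/
theorem finL_irr (hLTH : ST_LTH) (ρ : G →* Module.End ℚ_[l] V) (L₀ : Submodule ℤ_[l] V)
    (hfg : L₀.FG) (hsp : Submodule.span ℚ_[l] (L₀ : Set V) = ⊤) (hL₀ : ∀ g, ∀ v ∈ L₀, ρ g v ∈ L₀)
    (hirr : ∀ W : Submodule ℚ_[l] V, (∀ g, ∀ v ∈ W, ρ g v ∈ W) → W = ⊥ ∨ W = ⊤) :
    FinL ℤ_[l] (X := G) (fun g => (ρ g : V →ₗ[ℚ_[l]] V)) := by
  obtain ⟨B₀, A₀, hB₀, hA₀⟩ := integral_rep ρ L₀ hfg hsp hL₀
  have hρ : ∀ g v, B₀.equivFun (ρ g v) = (rat A₀ g).mulVec (B₀.equivFun v) := by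
    intro g v
    rw [hA₀]
    exact (LinearMap.toMatrix_mulVec_repr B₀ B₀ (ρ g) v).symm
  have hI : IsIrr (rat A₀) := by
    intro m B A hBA
    obtain ⟨⟨C, hC⟩, hBA'⟩ := hBA
    have hinj : Function.Injective B.mulVecLin := by
      intro x y hxy
      have h1 := congrArg (fun z => C.mulVec z) hxy
      simpa [Matrix.mulVecLin_apply, Matrix.mulVec_mulVec, hC] using h1
    have hfr : Module.finrank ℚ_[l] (LinearMap.range B.mulVecLin) = m := by
      rw [LinearMap.finrank_range_of_inj hinj]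
      simp
    have hst : ∀ g, ∀ v ∈ (LinearMap.range B.mulVecLin).comap (B₀.equivFun : V →ₗ[ℚ_[l]] _),
        ρ g v ∈ (LinearMap.range B.mulVecLin).comap (B₀.equivFun : V →ₗ[ℚ_[l]] _) := by
      intro g v hv
      rw [Submodule.mem_comap] at hv ⊢
      obtain ⟨w, hw⟩ := hv
      refine ⟨(A g).mulVec w, ?_⟩
      show B.mulVec _ = B₀.equivFun (ρ g v)
      have hw' : B.mulVec w = B₀.equivFun v := hw
      rw [hρ, Matrix.mulVec_mulVec, ← hBA', ← Matrix.mulVec_mulVec, hw']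
    rcases hirr _ hst with h | h
    · left
      have h1 : LinearMap.range B.mulVecLin = ⊥ := by
        rw [eq_bot_iff]
        intro x hx
        have h2 : B₀.equivFun.symm x ∈ (LinearMap.range B.mulVecLin).comap
            (B₀.equivFun : V →ₗ[ℚ_[l]] _) := by
          rw [Submodule.mem_comap]
          show B₀.equivFun (B₀.equivFun.symm x) ∈ _
          rw [LinearEquiv.apply_symm_apply]
          exact hx
        rw [h, Submodule.mem_bot, LinearEquiv.map_eq_zero_iff] at h2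
        rw [Submodule.mem_bot]
        exact h2
      rw [h1, finrank_bot] at hfr
      exact hfr.symm
    · right
      have h1 : LinearMap.range B.mulVecLin = ⊤ := by
        rw [eq_top_iff]
        intro x _
        have h2 : B₀.equivFun.symm x ∈ (LinearMap.range B.mulVecLin).comap
            (B₀.equivFun : V →ₗ[ℚ_[l]] _) := by rw [h]; exact Submodule.mem_top
        rw [Submodule.mem_comap] at h2
        have h3 : B₀.equivFun (B₀.equivFun.symm x) ∈ LinearMap.range B.mulVecLin := h2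
        rwa [LinearEquiv.apply_symm_apply] at h3
      rw [h1, finrank_top] at hfr
      simpa using hfr.symm
  obtain ⟨T, -, hT⟩ := hLTH G _ l A₀ hI
  refine ⟨(fun t : Matrix (Fin (Module.finrank ℚ_[l] V)) (Fin (Module.finrank ℚ_[l] V)) ℚ_[l] =>
    (lat t).map ((B₀.equivFun.symm : (Fin (Module.finrank ℚ_[l] V) → ℚ_[l]) →ₗ[ℚ_[l]] V).restrictScalars
      ℤ_[l])) '' (T : Set _), T.finite_toSet.image _, ?_⟩
  intro L hLfg hLsp hL
  obtain ⟨B₁, A₁, hB₁, hA₁⟩ := integral_rep ρ L hLfg hLsp hL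
  let g : Matrix.GeneralLinearGroup (Fin (Module.finrank ℚ_[l] V)) ℚ_[l] :=
    ⟨B₀.toMatrix B₁, B₁.toMatrix B₀, B₀.toMatrix_mul_toMatrix_flip B₁,
      B₁.toMatrix_mul_toMatrix_flip B₀⟩
  have hg : ∀ x, (g : Matrix (Fin (Module.finrank ℚ_[l] V)) (Fin (Module.finrank ℚ_[l] V)) ℚ_[l]) *
      rat A₁ x = rat A₀ x * g := by
    intro x
    rw [hA₀, hA₁]
    show B₀.toMatrix B₁ * _ = _ * B₀.toMatrix B₁
    rw [basis_toMatrix_mul_linearMap_toMatrix, linearMap_toMatrix_mul_basis_toMatrix]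
  obtain ⟨t, ht, c, u, hc, hgt⟩ := hT A₁ g hg
  have hgL : L = (lat (g : Matrix (Fin (Module.finrank ℚ_[l] V)) (Fin (Module.finrank ℚ_[l] V))
      ℚ_[l])).map ((B₀.equivFun.symm : (Fin (Module.finrank ℚ_[l] V) → ℚ_[l]) →ₗ[ℚ_[l]] V).restrictScalars
        ℤ_[l]) := by
    ext v
    rw [Submodule.mem_map, ← hB₁, Submodule.mem_span_range_iff_exists_fun]
    have h1 : ∀ z : Fin (Module.finrank ℚ_[l] V) → ℤ_[l],
        B₀.equivFun.symm ((g : Matrix (Fin (Module.finrank ℚ_[l] V)) (Fin (Module.finrank ℚ_[l] V))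
          ℚ_[l]).mulVec (emb z)) = ∑ i, z i • B₁ i := by
      intro z
      apply B₀.equivFun.injective
      rw [LinearEquiv.apply_symm_apply, map_sum]
      ext i
      rw [Finset.sum_apply]
      show (B₀.toMatrix B₁).mulVec (emb z) i = _
      rw [Matrix.mulVec, dotProduct]
      refine Finset.sum_congr rfl fun j _ => ?_
      rw [← algebraMap_smul ℚ_[l] (z j) (B₁ j), map_smul, Pi.smul_apply, smul_eq_mul, mul_comm]
      rfl
    constructor
    · rintro ⟨z, rfl⟩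
      exact ⟨_, (mem_lat _ _).2 ⟨z, rfl⟩, h1 z⟩
    · rintro ⟨y, hy, rfl⟩
      obtain ⟨z, rfl⟩ := (mem_lat _ _).1 hy
      exact ⟨z, (h1 z).symm⟩
  refine ⟨LinearEquiv.smulOfNeZero ℚ_[l] V c⁻¹ (inv_ne_zero hc), ?_, t, ht, ?_⟩
  · intro x v
    simp [LinearEquiv.smulOfNeZero_apply]
  · have h2 : c⁻¹ • (g : Matrix (Fin (Module.finrank ℚ_[l] V)) (Fin (Module.finrank ℚ_[l] V)) ℚ_[l]) =
        t * (u : Matrix (Fin (Module.finrank ℚ_[l] V)) (Fin (Module.finrank ℚ_[l] V)) ℤ_[l]).map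
          (algebraMap ℤ_[l] ℚ_[l]) := by
      rw [hgt, smul_smul, inv_mul_cancel₀ hc, one_smul]
    show (lat t).map _ = _
    rw [hgL, ← lat_unit t u, ← h2]
    ext v
    simp only [Submodule.mem_map]
    constructor
    · rintro ⟨y, hy, rfl⟩
      obtain ⟨z, rfl⟩ := (mem_lat _ _).1 hy
      refine ⟨_, ⟨(g : Matrix (Fin (Module.finrank ℚ_[l] V)) (Fin (Module.finrank ℚ_[l] V))
        ℚ_[l]).mulVec (emb z), (mem_lat _ _).2 ⟨z, rfl⟩, rfl⟩, ?_⟩
      show c⁻¹ • B₀.equivFun.symm _ = B₀.equivFun.symm _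
      rw [← map_smul, ← Matrix.smul_mulVec]
    · rintro ⟨_, ⟨y, hy, rfl⟩, rfl⟩
      obtain ⟨z, rfl⟩ := (mem_lat _ _).1 hy
      refine ⟨_, (mem_lat _ _).2 ⟨z, rfl⟩, ?_⟩
      show B₀.equivFun.symm _ = c⁻¹ • B₀.equivFun.symm _
      rw [← map_smul, ← Matrix.smul_mulVec]

end

/-- the lattices for a completely reducible integral representation -/
theorem finL (hCRD : ST_CRD) (hLTH : ST_LTH) (G : Type) [Group G] (n l : ℕ) [Fact l.Prime]
    (r : G →* Matrix.GeneralLinearGroup (Fin n) ℤ_[l]) (hr : IsSS (rat r)) :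
    FinL ℤ_[l] (X := G) (fun g => (rat r g).mulVecLin) := by
  apply hCRD ℤ_[l] ℚ_[l] (Fin n → ℚ_[l]) G fin_quot
  · intro W hW
    exact SEM53.exists_compl hr W hW
  · intro W hW hirr
    let ρ : G →* Module.End ℚ_[l] W :=
      { toFun := fun g => ((rat r g).mulVecLin).restrict (hW g)
        map_one' := by
          ext x : 2
          show (rat r 1).mulVec (x : Fin n → ℚ_[l]) = x
          rw [map_one, Matrix.one_mulVec]
        map_mul' := fun g h => by
          ext x : 2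
          show (rat r (g * h)).mulVec (x : Fin n → ℚ_[l]) =
            (rat r g).mulVec ((rat r h).mulVec (x : Fin n → ℚ_[l]))
          rw [map_mul, Matrix.mulVec_mulVec] }
    have hmul : ∀ x : Fin n → ℚ_[l], ∃ a : ℤ_[l], a ≠ 0 ∧ a • x ∈ lat (1 : Matrix (Fin n) (Fin n) ℚ_[l]) := by
      intro x
      obtain ⟨c, hc⟩ := IsLocalization.exist_integer_multiples_of_finite (nonZeroDivisors ℤ_[l]) x
      refine ⟨(c : ℤ_[l]), nonZeroDivisors.coe_ne_zero c, ?_⟩
      have h1 : ∀ i, ∃ z : ℤ_[l], algebraMap ℤ_[l] ℚ_[l] z = (c : ℤ_[l]) • x i := fun i => hc i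
      choose z hz using h1
      rw [mem_lat]
      refine ⟨z, ?_⟩
      rw [Matrix.one_mulVec]
      ext i
      exact hz i
    refine finL_irr hLTH ρ ((lat 1).comap (W.subtype.restrictScalars ℤ_[l])) ?_ ?_ ?_ ?_
    · refine Submodule.fg_of_fg_map_injective (W.subtype.restrictScalars ℤ_[l]) W.injective_subtype ?_
      exact Submodule.FG.of_le (lat_fg 1) (Submodule.map_comap_le _ _)
    · rw [eq_top_iff]
      intro x _
      obtain ⟨a, ha, hax⟩ := hmul x
      have ha' : algebraMap ℤ_[l] ℚ_[l] a ≠ 0 := by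
        simpa using ha
      have h1 : x = (algebraMap ℤ_[l] ℚ_[l] a)⁻¹ • (a • x) := by
        rw [← algebraMap_smul ℚ_[l] a x, smul_smul, inv_mul_cancel₀ ha', one_smul]
      rw [h1]
      exact Submodule.smul_mem _ _ (Submodule.subset_span hax)
    · intro g v hv
      rw [Submodule.mem_comap] at hv ⊢
      obtain ⟨z, hz⟩ := (mem_lat _ _).1 hv
      rw [mem_lat]
      refine ⟨((r g : Matrix.GeneralLinearGroup (Fin n) ℤ_[l]) : Matrix (Fin n) (Fin n) ℤ_[l]).mulVec z, ?_⟩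
      rw [Matrix.one_mulVec] at hz ⊢
      rw [emb_mulVec, hz]
      rfl
    · intro W₁ hW₁
      have h1 := hirr (W₁.map W.subtype) ?_ (Submodule.map_subtype_le _ _)
      · rcases h1 with h1 | h1
        · left
          apply Submodule.map_injective_of_injective W.injective_subtype
          rw [h1, Submodule.map_bot]
        · right
          rw [eq_top_iff]
          intro x _
          have h2 : (x : Fin n → ℚ_[l]) ∈ W₁.map W.subtype := by rw [h1]; exact x.2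
          obtain ⟨y, hy, hy'⟩ := Submodule.mem_map.1 h2
          have : y = x := Subtype.ext hy'
          rwa [← this]
      · intro g v hv
        obtain ⟨y, hy, rfl⟩ := Submodule.mem_map.1 hv
        exact Submodule.mem_map.2 ⟨_, hW₁ g y hy, rfl⟩

end LTS53

open LTS53 in
theorem st_LTS (hCRD : ST_CRD) (hLTH : ST_LTH) : ST_LTS := by
  intro G _ n l _ r hr
  obtain ⟨T, hT, hT'⟩ := finL hCRD hLTH G n l r hr
  have hch : ∀ L ∈ T, ∃ t : Matrix.GeneralLinearGroup (Fin n) ℚ_[l],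
      (∃ t' : Matrix.GeneralLinearGroup (Fin n) ℚ_[l], lat (t' : Matrix (Fin n) (Fin n) ℚ_[l]) = L) →
        lat (t : Matrix (Fin n) (Fin n) ℚ_[l]) = L := by
    intro L _
    by_cases h : ∃ t' : Matrix.GeneralLinearGroup (Fin n) ℚ_[l],
        lat (t' : Matrix (Fin n) (Fin n) ℚ_[l]) = L
    · obtain ⟨t', ht'⟩ := h
      exact ⟨t', fun _ => ht'⟩
    · exact ⟨1, fun h' => absurd h' h⟩
  choose! t ht using hch
  refine ⟨hT.toFinset.image t, ?_⟩
  intro s g hg
  obtain ⟨f, hf, hfT⟩ := hT' (lat (g : Matrix (Fin n) (Fin n) ℚ_[l])) (lat_fg _) (span_lat g) (by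
    intro x v hv
    obtain ⟨z, rfl⟩ := (mem_lat _ _).1 hv
    rw [mem_lat]
    refine ⟨((s x : Matrix.GeneralLinearGroup (Fin n) ℤ_[l]) : Matrix (Fin n) (Fin n) ℤ_[l]).mulVec z, ?_⟩
    rw [emb_mulVec, Matrix.mulVecLin_apply, Matrix.mulVec_mulVec, Matrix.mulVec_mulVec, ← hg]
    rfl)
  -- the matrix of f
  obtain ⟨a, ha⟩ : ∃ a : Matrix.GeneralLinearGroup (Fin n) ℚ_[l],
      ∀ x, f x = (a : Matrix (Fin n) (Fin n) ℚ_[l]).mulVec x := by
    refine ⟨⟨LinearMap.toMatrix' (f : (Fin n → ℚ_[l]) →ₗ[ℚ_[l]] (Fin n → ℚ_[l])),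
      LinearMap.toMatrix' (f.symm : (Fin n → ℚ_[l]) →ₗ[ℚ_[l]] (Fin n → ℚ_[l])), ?_, ?_⟩, ?_⟩
    · rw [← LinearMap.toMatrix'_comp]
      simp
    · rw [← LinearMap.toMatrix'_comp]
      simp
    · intro x
      show _ = (LinearMap.toMatrix' (f : (Fin n → ℚ_[l]) →ₗ[ℚ_[l]] (Fin n → ℚ_[l]))).mulVec x
      rw [LinearMap.toMatrix'_mulVec]
      rfl
  have hab : ∀ x, (a : Matrix (Fin n) (Fin n) ℚ_[l]) * rat r x = rat r x * a := by
    intro x
    apply Matrix.mulVec_injective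
    ext v : 1
    have h1 := hf x v
    simp only [Matrix.mulVecLin_apply, ha, Matrix.mulVec_mulVec] at h1
    exact h1
  rw [map_lat _ _ f ha] at hfT
  have h3 : lat ((a * g : Matrix.GeneralLinearGroup (Fin n) ℚ_[l]) : Matrix (Fin n) (Fin n) ℚ_[l]) =
      lat (a * g : Matrix (Fin n) (Fin n) ℚ_[l]) := rfl
  have h4 := ht _ hfT ⟨a * g, h3⟩
  rw [← h3] at h4
  obtain ⟨u, hu⟩ := LTS53.unit _ _ h4.symm
  rw [h3] at hu
  refine ⟨_, Finset.mem_image_of_mem t (hT.mem_toFinset.2 hfT), a⁻¹, u, ?_, ?_⟩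
  · intro x
    have h5 := hab x
    have h6 : ((a⁻¹ : Matrix.GeneralLinearGroup (Fin n) ℚ_[l]) : Matrix (Fin n) (Fin n) ℚ_[l]) *
        ((a : Matrix (Fin n) (Fin n) ℚ_[l]) * rat r x) *
        ((a⁻¹ : Matrix.GeneralLinearGroup (Fin n) ℚ_[l]) : Matrix (Fin n) (Fin n) ℚ_[l]) =
        ((a⁻¹ : Matrix.GeneralLinearGroup (Fin n) ℚ_[l]) : Matrix (Fin n) (Fin n) ℚ_[l]) *
        (rat r x * (a : Matrix (Fin n) (Fin n) ℚ_[l])) *
        ((a⁻¹ : Matrix.GeneralLinearGroup (Fin n) ℚ_[l]) : Matrix (Fin n) (Fin n) ℚ_[l]) := by rw [h5]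
    simp only [← mul_assoc, Units.inv_mul, one_mul] at h6
    simp only [mul_assoc, Units.mul_inv, mul_one] at h6
    exact h6.symm
  · rw [mul_assoc, ← hu]
    simp

end REC
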