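import Pool.Agent.Helper85.REC.Stmts9
import Pool.Agent.Helper43.MU.LAT

/-!
# MXL: maximal integral lattices for a symmetric form
-/

set_option autoImplicit false

open scoped Classical
open NumberField

namespace REC

namespace MXL53

variable {l : ℕ} [Fact l.Prime] {n : ℕ}

theorem l_ne : (l : ℤ_[l]) ≠ 0 := by
  exact_mod_cast (Fact.out : l.Prime).ne_zero

theorem cancel_right {w X Y : Matrix (Fin n) (Fin n) ℤ_[l]} (hw : w.det ≠ 0)
    (h : X * w = Y * w) : X = Y := by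
  have h1 : w.transpose * X.transpose = w.transpose * Y.transpose := by
    rw [← Matrix.transpose_mul, ← Matrix.transpose_mul, h]
  have h2 := MU.lat_cancel (by rwa [Matrix.det_transpose]) h1
  rw [← Matrix.transpose_transpose X, h2, Matrix.transpose_transpose]

theorem smul_cancel {c : ℤ_[l]} (hc : c ≠ 0) {X Y : Matrix (Fin n) (Fin n) ℤ_[l]}
    (h : c • X = c • Y) : X = Y := by
  ext i j
  have := congrFun (congrFun h i) j
  simp only [Matrix.smul_apply, smul_eq_mul] at this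
  exact mul_left_cancel₀ hc this

/-- a submodule which contains `l M` has a square basis matrix -/
theorem exists_basis (N : Submodule ℤ_[l] (Fin n → ℤ_[l]))
    (hN : ∀ v : Fin n → ℤ_[l], (l : ℤ_[l]) • v ∈ N) :
    ∃ A : Matrix (Fin n) (Fin n) ℤ_[l], A.det ≠ 0 ∧ (∀ c, A.mulVec c ∈ N) ∧
      ∀ v ∈ N, ∃ c, A.mulVec c = v := by
  let φ : (Fin n → ℤ_[l]) →ₗ[ℤ_[l]] N :=
    { toFun := fun v => ⟨(l : ℤ_[l]) • v, hN v⟩
      map_add' := fun v w => Subtype.ext (smul_add _ _ _)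
      map_smul' := fun c v => Subtype.ext (smul_comm _ _ _) }
  have hφ : Function.Injective φ := by
    intro v w h
    have h1 : (l : ℤ_[l]) • v = (l : ℤ_[l]) • w := congrArg Subtype.val h
    funext i
    have h2 := congrFun h1 i
    simp only [Pi.smul_apply, smul_eq_mul] at h2
    exact mul_left_cancel₀ l_ne h2
  have hrk : Module.finrank ℤ_[l] N = n := by
    have h1 := Submodule.finrank_le N
    have h2 := LinearMap.finrank_le_finrank_of_injective hφ
    rw [Module.finrank_fin_fun] at h1 h2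
    exact le_antisymm h1 h2
  let b := Module.finBasisOfFinrankEq ℤ_[l] N hrk
  let A : Matrix (Fin n) (Fin n) ℤ_[l] := Matrix.of fun i j => (b j : Fin n → ℤ_[l]) i
  have hA : ∀ c : Fin n → ℤ_[l], A.mulVec c = ((∑ j, c j • b j : N) : Fin n → ℤ_[l]) := by
    intro c
    funext i
    rw [Submodule.coe_sum, Finset.sum_apply]
    simp only [Matrix.mulVec, dotProduct, A, Matrix.of_apply, Submodule.coe_smul, Pi.smul_apply,
      smul_eq_mul]
    exact Finset.sum_congr rfl fun j _ => mul_comm _ _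
  have hsurj : ∀ v ∈ N, ∃ c, A.mulVec c = v := by
    intro v hv
    refine ⟨fun j => b.repr ⟨v, hv⟩ j, ?_⟩
    rw [hA, b.sum_repr]
  refine ⟨A, ?_, fun c => ?_, hsurj⟩
  · have h1 : ∀ j : Fin n, ∃ c, A.mulVec c = (l : ℤ_[l]) • (Pi.single j 1 : Fin n → ℤ_[l]) :=
      fun j => hsurj _ (hN _)
    choose c hc using h1
    have h2 : A * Matrix.of (fun i j => c j i) = (l : ℤ_[l]) • (1 : Matrix (Fin n) (Fin n) ℤ_[l]) := by
      ext i j
      have h3 := congrFun (hc j) i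
      simp only [Matrix.mulVec, dotProduct, Pi.smul_apply, smul_eq_mul] at h3
      rw [Matrix.mul_apply]
      simp only [Matrix.of_apply, Matrix.smul_apply, smul_eq_mul]
      rw [h3, Matrix.one_apply, Pi.single_apply]
    intro h0
    have h3 := congrArg Matrix.det h2
    rw [Matrix.det_mul, h0, zero_mul, Matrix.det_smul, Matrix.det_one, mul_one] at h3
    exact pow_ne_zero _ l_ne h3.symm
  · rw [hA]
    exact Submodule.coe_mem _

/-- the data of a lattice with an integral form -/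
structure Dt {G : Type} [Group G] (r : G →* Matrix.GeneralLinearGroup (Fin n) ℤ_[l])
    (ν : G → ℤ_[l]) (s : G →* Matrix.GeneralLinearGroup (Fin n) ℤ_[l])
    (Ψ : Matrix (Fin n) (Fin n) ℤ_[l]) : Prop where
  eqv : MU.EqvQ r s
  det : Ψ.det ≠ 0
  symm : Ψ.transpose = Ψ
  pres : ∀ g, (s g : Matrix (Fin n) (Fin n) ℤ_[l]).transpose * Ψ * s g = ν g • Ψ

theorem map_mul_rat {G : Type} [Group G] (r : G →* Matrix.GeneralLinearGroup (Fin n) ℤ_[l])
    (g : G) : MU.rat r g =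
      (algebraMap ℤ_[l] ℚ_[l]).mapMatrix (r g : Matrix (Fin n) (Fin n) ℤ_[l]) := rfl

/-- an integral matrix with `s g A = A t g` gives an isomorphism over `ℚ_l` -/
theorem eqv_of {G : Type} [Group G] {r s t : G →* Matrix.GeneralLinearGroup (Fin n) ℤ_[l]}
    (h : MU.EqvQ r s) {A : Matrix (Fin n) (Fin n) ℤ_[l]} (hA : A.det ≠ 0)
    (hst : ∀ g, (s g : Matrix (Fin n) (Fin n) ℤ_[l]) * A = A * t g) : MU.EqvQ r t := by
  obtain ⟨u, hu⟩ := h
  have hdet : IsUnit ((algebraMap ℤ_[l] ℚ_[l]).mapMatrix A) := by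
    rw [Matrix.isUnit_iff_isUnit_det, isUnit_iff_ne_zero]
    change (A.map (algebraMap ℤ_[l] ℚ_[l])).det ≠ 0
    have := (algebraMap ℤ_[l] ℚ_[l]).map_det A
    rw [RingHom.mapMatrix_apply] at this
    rw [← this]
    intro h0
    exact hA ((IsFractionRing.injective ℤ_[l] ℚ_[l]) (by rw [h0, map_zero]))
  obtain ⟨a, ha⟩ := hdet
  refine ⟨a⁻¹ * u, fun g => ?_⟩
  have h1 : MU.rat s g * (a : Matrix (Fin n) (Fin n) ℚ_[l]) =
      (a : Matrix (Fin n) (Fin n) ℚ_[l]) * MU.rat t g := by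
    rw [ha, map_mul_rat, map_mul_rat, ← map_mul, ← map_mul, hst g]
  have h2 : ((a⁻¹ : Matrix.GeneralLinearGroup (Fin n) ℚ_[l]) : Matrix (Fin n) (Fin n) ℚ_[l]) *
      (a : Matrix (Fin n) (Fin n) ℚ_[l]) = 1 := by
    rw [← Units.val_mul, inv_mul_cancel, Units.val_one]
  have h3 : (a : Matrix (Fin n) (Fin n) ℚ_[l]) *
      ((a⁻¹ : Matrix.GeneralLinearGroup (Fin n) ℚ_[l]) : Matrix (Fin n) (Fin n) ℚ_[l]) = 1 := by
    rw [← Units.val_mul, mul_inv_cancel, Units.val_one]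
  have h4 : ((a⁻¹ : Matrix.GeneralLinearGroup (Fin n) ℚ_[l]) : Matrix (Fin n) (Fin n) ℚ_[l]) *
      MU.rat s g = MU.rat t g *
        ((a⁻¹ : Matrix.GeneralLinearGroup (Fin n) ℚ_[l]) : Matrix (Fin n) (Fin n) ℚ_[l]) := by
    calc _ = ((a⁻¹ : Matrix.GeneralLinearGroup (Fin n) ℚ_[l]) : Matrix (Fin n) (Fin n) ℚ_[l]) *
          (MU.rat s g * ((a : Matrix (Fin n) (Fin n) ℚ_[l]) *
            ((a⁻¹ : Matrix.GeneralLinearGroup (Fin n) ℚ_[l]) : Matrix (Fin n) (Fin n) ℚ_[l]))) := by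
            rw [h3, Matrix.mul_one]
      _ = ((a⁻¹ : Matrix.GeneralLinearGroup (Fin n) ℚ_[l]) : Matrix (Fin n) (Fin n) ℚ_[l]) *
          (a : Matrix (Fin n) (Fin n) ℚ_[l]) * (MU.rat t g *
            ((a⁻¹ : Matrix.GeneralLinearGroup (Fin n) ℚ_[l]) : Matrix (Fin n) (Fin n) ℚ_[l])) := by
            rw [← Matrix.mul_assoc (MU.rat s g), h1]
            simp only [Matrix.mul_assoc]
      _ = _ := by rw [h2, Matrix.one_mul]
  rw [Units.val_mul, Matrix.mul_assoc, hu g, ← Matrix.mul_assoc, h4, Matrix.mul_assoc]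

/-- the enlargement step -/
theorem step {G : Type} [Group G] {r s : G →* Matrix.GeneralLinearGroup (Fin n) ℤ_[l]}
    {ν : G → ℤ_[l]} {Ψ : Matrix (Fin n) (Fin n) ℤ_[l]} (h : Dt r ν s Ψ) :
    (∃ X : Matrix (Fin n) (Fin n) ℤ_[l], Ψ * X = (l : ℤ_[l]) • 1) ∨
    ∃ (t : G →* Matrix.GeneralLinearGroup (Fin n) ℤ_[l]) (Ψ' : Matrix (Fin n) (Fin n) ℤ_[l]),
      Dt r ν t Ψ' ∧ Ψ'.det.valuation < Ψ.det.valuation := by
  have hex : ∃ k : ℕ, ∃ Y : Matrix (Fin n) (Fin n) ℤ_[l], Ψ * Y = ((l : ℤ_[l]) ^ k) • 1 := by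
    refine ⟨Ψ.det.valuation, (((PadicInt.unitCoeff h.det)⁻¹ : ℤ_[l]ˣ) : ℤ_[l]) • Ψ.adjugate, ?_⟩
    rw [Matrix.mul_smul, Matrix.mul_adjugate, smul_smul]
    congr 1
    have e := PadicInt.unitCoeff_spec h.det
    calc _ = (((PadicInt.unitCoeff h.det)⁻¹ : ℤ_[l]ˣ) : ℤ_[l]) *
          (((PadicInt.unitCoeff h.det : ℤ_[l]ˣ) : ℤ_[l]) * (l : ℤ_[l]) ^ Ψ.det.valuation) := by
          rw [← e]
      _ = _ := by rw [← mul_assoc, Units.inv_mul, one_mul]
  obtain ⟨Y, hY⟩ := Nat.find_spec hex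
  set k := Nat.find hex with hk
  rcases Nat.lt_or_ge k 2 with hk2 | hk2
  · left
    refine ⟨((l : ℤ_[l]) ^ (1 - k)) • Y, ?_⟩
    rw [Matrix.mul_smul, hY, smul_smul, ← pow_add]
    congr 1
    rw [show 1 - k + k = 1 by omega, pow_one]
  right
  -- `Y` is not divisible by `l`
  have hYl : ¬ ∃ Y' : Matrix (Fin n) (Fin n) ℤ_[l], Y = (l : ℤ_[l]) • Y' := by
    rintro ⟨Y', rfl⟩
    refine Nat.find_min hex (m := k - 1) (by omega) ⟨Y', ?_⟩
    refine smul_cancel (c := (l : ℤ_[l])) l_ne ?_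
    rw [← Matrix.mul_smul, hY, smul_smul, ← pow_succ', show k - 1 + 1 = k by omega]
  have hYΨ : Y * Ψ = ((l : ℤ_[l]) ^ k) • 1 := by
    refine MU.lat_cancel h.det ?_
    rw [← Matrix.mul_assoc, hY, Matrix.smul_mul, Matrix.one_mul, Matrix.mul_smul, Matrix.mul_one]
  -- the action on `Y`
  have hsY : ∀ g, (s g : Matrix (Fin n) (Fin n) ℤ_[l]) * Y =
      Y * (ν g • ((s g)⁻¹ : Matrix.GeneralLinearGroup (Fin n) ℤ_[l]).val.transpose) := by
    intro g
    have h1 : (s g : Matrix (Fin n) (Fin n) ℤ_[l]).transpose *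
        ((s g)⁻¹ : Matrix.GeneralLinearGroup (Fin n) ℤ_[l]).val.transpose = 1 := by
      rw [← Matrix.transpose_mul, ← Units.val_mul, inv_mul_cancel, Units.val_one,
        Matrix.transpose_one]
    have h2 : ((s g)⁻¹ : Matrix.GeneralLinearGroup (Fin n) ℤ_[l]).val.transpose *
        (s g : Matrix (Fin n) (Fin n) ℤ_[l]).transpose = 1 := by
      rw [← Matrix.transpose_mul, ← Units.val_mul, mul_inv_cancel, Units.val_one,
        Matrix.transpose_one]
    have h3 : Ψ * (s g : Matrix (Fin n) (Fin n) ℤ_[l]) =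
        ν g • (((s g)⁻¹ : Matrix.GeneralLinearGroup (Fin n) ℤ_[l]).val.transpose * Ψ) := by
      calc Ψ * (s g : Matrix (Fin n) (Fin n) ℤ_[l]) =
          (((s g)⁻¹ : Matrix.GeneralLinearGroup (Fin n) ℤ_[l]).val.transpose *
            (s g : Matrix (Fin n) (Fin n) ℤ_[l]).transpose) * (Ψ * s g) := by
            rw [h2, Matrix.one_mul]
        _ = ((s g)⁻¹ : Matrix.GeneralLinearGroup (Fin n) ℤ_[l]).val.transpose *
            ((s g : Matrix (Fin n) (Fin n) ℤ_[l]).transpose * Ψ * s g) := by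
            simp only [Matrix.mul_assoc]
        _ = _ := by rw [h.pres g, Matrix.mul_smul]
    refine MU.lat_cancel h.det ?_
    rw [← Matrix.mul_assoc, h3, Matrix.smul_mul, Matrix.mul_assoc, hY, ← Matrix.mul_assoc, hY,
      Matrix.mul_smul, Matrix.mul_one, Matrix.smul_mul, Matrix.one_mul, smul_comm]
  -- the submodule
  let N : Submodule ℤ_[l] (Fin n → ℤ_[l]) :=
    LinearMap.range (((l : ℤ_[l]) • LinearMap.id).coprod Y.mulVecLin)
  have hmemN : ∀ v, v ∈ N ↔ ∃ x y : Fin n → ℤ_[l], v = (l : ℤ_[l]) • x + Y.mulVec y := by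
    intro v
    constructor
    · rintro ⟨⟨x, y⟩, rfl⟩
      exact ⟨x, y, rfl⟩
    · rintro ⟨x, y, rfl⟩
      exact ⟨⟨x, y⟩, rfl⟩
  obtain ⟨A, hA0, hAN, hNA⟩ := exists_basis N (fun v => (hmemN _).mpr
    ⟨v, 0, by rw [Matrix.mulVec_zero, add_zero]⟩)
  have hNs : ∀ g, ∀ v ∈ N, (s g : Matrix (Fin n) (Fin n) ℤ_[l]).mulVec v ∈ N := by
    intro g v hv
    obtain ⟨x, y, rfl⟩ := (hmemN v).mp hv
    refine (hmemN _).mpr ⟨(s g : Matrix (Fin n) (Fin n) ℤ_[l]).mulVec x,
      (ν g • ((s g)⁻¹ : Matrix.GeneralLinearGroup (Fin n) ℤ_[l]).val.transpose).mulVec y, ?_⟩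
    rw [Matrix.mulVec_add, Matrix.mulVec_smul, Matrix.mulVec_mulVec, hsY g, Matrix.mulVec_mulVec]
  -- the new representation
  have hcol : ∀ (B : Matrix (Fin n) (Fin n) ℤ_[l]), (∀ c, B.mulVec c ∈ N) →
      ∃ C : Matrix (Fin n) (Fin n) ℤ_[l], B = A * C := by
    intro B hB
    choose c hc using fun j : Fin n => hNA _ (hB (Pi.single j 1))
    refine ⟨Matrix.of fun i j => c j i, ?_⟩
    ext i j
    have h3 := congrFun (hc j) i
    rw [Matrix.mulVec_single_one] at h3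
    rw [Matrix.mul_apply]
    exact h3.symm
  have hC : ∀ g, ∃ C : Matrix (Fin n) (Fin n) ℤ_[l],
      (s g : Matrix (Fin n) (Fin n) ℤ_[l]) * A = A * C := by
    intro g
    refine hcol _ fun c => ?_
    rw [← Matrix.mulVec_mulVec]
    exact hNs g _ (hAN c)
  choose C hC using hC
  let t₀ : G →* Matrix (Fin n) (Fin n) ℤ_[l] :=
    { toFun := C
      map_one' := by
        refine MU.lat_cancel hA0 ?_
        rw [← hC 1, map_one, Units.val_one, Matrix.one_mul, Matrix.mul_one]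
      map_mul' := by
        intro a b
        refine MU.lat_cancel hA0 ?_
        rw [← hC (a * b), map_mul, Units.val_mul, Matrix.mul_assoc, hC b, ← Matrix.mul_assoc, hC a,
          Matrix.mul_assoc] }
  let t : G →* Matrix.GeneralLinearGroup (Fin n) ℤ_[l] := t₀.toHomUnits
  have ht : ∀ g, ((t g : Matrix.GeneralLinearGroup (Fin n) ℤ_[l]) :
      Matrix (Fin n) (Fin n) ℤ_[l]) = C g := fun g => rfl
  -- the new form
  have hdiv : ∃ Ψ' : Matrix (Fin n) (Fin n) ℤ_[l],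
      A.transpose * Ψ * A = ((l : ℤ_[l]) ^ 2) • Ψ' := by
    have h1 : ∀ i j, ∃ z : ℤ_[l], (A.transpose * Ψ * A) i j = (l : ℤ_[l]) ^ 2 * z := by
      intro i j
      obtain ⟨x, y, hxy⟩ := (hmemN _).mp (hAN (Pi.single i 1))
      obtain ⟨x', y', hxy'⟩ := (hmemN _).mp (hAN (Pi.single j 1))
      have h2 : (A.transpose * Ψ * A) i j = (A.mulVec (Pi.single i 1)) ⬝ᵥ
          (Ψ.mulVec (A.mulVec (Pi.single j 1))) := by
        rw [Matrix.mulVec_mulVec, Matrix.mulVec_single_one, Matrix.mulVec_single_one,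
          Matrix.mul_assoc, Matrix.mul_apply]
        rfl
      rw [h2, hxy, hxy']
      have h3 : Ψ.mulVec (Y.mulVec y') = (l : ℤ_[l]) ^ k • y' := by
        rw [Matrix.mulVec_mulVec, hY, Matrix.smul_mulVec, Matrix.one_mulVec]
      have h4 : ∀ z : Fin n → ℤ_[l], ((Y.mulVec y) ⬝ᵥ (Ψ.mulVec z)) = (l : ℤ_[l]) ^ k * (y ⬝ᵥ z) := by
        intro z
        rw [Matrix.dotProduct_mulVec, ← Matrix.mulVec_transpose, h.symm, Matrix.mulVec_mulVec, hY,
          Matrix.smul_mulVec, Matrix.one_mulVec, smul_dotProduct, smul_eq_mul]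
      rw [add_dotProduct, h4, Matrix.mulVec_add, h3, Matrix.mulVec_smul, dotProduct_add,
        smul_dotProduct, smul_dotProduct, dotProduct_smul, dotProduct_smul, dotProduct_add,
        dotProduct_smul]
      obtain ⟨k', hk'⟩ := Nat.exists_eq_add_of_le hk2
      rw [hk', pow_add]
      refine ⟨x ⬝ᵥ Ψ.mulVec x' + (l : ℤ_[l]) * (l : ℤ_[l]) ^ k' * (x ⬝ᵥ y') +
        (l : ℤ_[l]) ^ k' * ((l : ℤ_[l]) * (y ⬝ᵥ x') + y ⬝ᵥ Y.mulVec y'), ?_⟩
      simp only [smul_eq_mul]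
      ring
    choose z hz using h1
    refine ⟨Matrix.of z, ?_⟩
    ext i j
    rw [hz i j]
    rfl
  obtain ⟨Ψ', hΨ'⟩ := hdiv
  have hl2 : ((l : ℤ_[l]) ^ 2) ≠ 0 := pow_ne_zero _ l_ne
  have hdet' : Ψ'.det ≠ 0 := by
    intro h0
    have h1 := congrArg Matrix.det hΨ'
    rw [Matrix.det_smul, h0, mul_zero, Matrix.det_mul, Matrix.det_mul, Matrix.det_transpose] at h1
    exact (mul_ne_zero (mul_ne_zero hA0 h.det) hA0) h1
  refine ⟨t, Ψ', ⟨eqv_of h.eqv hA0 (fun g => by rw [ht, hC g]), hdet', ?_, fun g => ?_⟩, ?_⟩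
  · refine smul_cancel hl2 ?_
    rw [← Matrix.transpose_smul, ← hΨ', Matrix.transpose_mul, Matrix.transpose_mul,
      Matrix.transpose_transpose, h.symm, Matrix.mul_assoc]
  · refine smul_cancel hl2 ?_
    rw [ht, smul_comm, ← hΨ']
    calc ((l : ℤ_[l]) ^ 2) • ((C g).transpose * Ψ' * C g) =
        (C g).transpose * (((l : ℤ_[l]) ^ 2) • Ψ') * C g := by
          rw [Matrix.mul_smul, Matrix.smul_mul]
      _ = (A * C g).transpose * Ψ * (A * C g) := by
          rw [← hΨ', Matrix.transpose_mul]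
          simp only [Matrix.mul_assoc]
      _ = A.transpose * ((s g : Matrix (Fin n) (Fin n) ℤ_[l]).transpose * Ψ * s g) * A := by
          rw [← hC g, Matrix.transpose_mul]
          simp only [Matrix.mul_assoc]
      _ = _ := by rw [h.pres g, Matrix.mul_smul, Matrix.smul_mul]
  · -- valuations
    obtain ⟨A', hA'⟩ := hcol ((l : ℤ_[l]) • 1) (fun c => by
      rw [Matrix.smul_mulVec, Matrix.one_mulVec]
      exact (hmemN _).mpr ⟨c, 0, by rw [Matrix.mulVec_zero, add_zero]⟩)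
    have h1 := congrArg Matrix.det hA'
    rw [Matrix.det_smul, Matrix.det_one, mul_one, Matrix.det_mul, Fintype.card_fin] at h1
    have hA'0 : A'.det ≠ 0 := by
      intro h0
      rw [h0, mul_zero] at h1
      exact pow_ne_zero _ l_ne h1
    have h2 := congrArg PadicInt.valuation h1
    rw [PadicInt.valuation_pow, PadicInt.valuation_p, mul_one,
      PadicInt.valuation_mul hA0 hA'0] at h2
    have h3 := congrArg (fun M => M.det.valuation) hΨ'
    simp only [Matrix.det_smul, Matrix.det_mul, Matrix.det_transpose, Fintype.card_fin] at h3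
    rw [PadicInt.valuation_mul (mul_ne_zero hA0 h.det) hA0, PadicInt.valuation_mul hA0 h.det,
      PadicInt.valuation_mul (pow_ne_zero _ hl2) hdet', PadicInt.valuation_pow,
      PadicInt.valuation_pow, PadicInt.valuation_p] at h3
    have h4 : A'.det.valuation ≠ 0 := by
      intro h0
      have hu : IsUnit A'.det := by
        rw [PadicInt.unitCoeff_spec hA'0, h0, pow_zero, mul_one]
        exact Units.isUnit _
      obtain ⟨B, hB⟩ : ∃ B : Matrix (Fin n) (Fin n) ℤ_[l], A' * B = 1 :=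
        ⟨A'⁻¹, Matrix.mul_nonsing_inv _ hu⟩
      have h5 : A = (l : ℤ_[l]) • B := by
        calc A = A * (A' * B) := by rw [hB, Matrix.mul_one]
          _ = (l : ℤ_[l]) • B := by
            rw [← Matrix.mul_assoc, ← hA', Matrix.smul_mul, Matrix.one_mul]
      obtain ⟨D, hD⟩ := hcol Y (fun c => (hmemN _).mpr ⟨0, c, by rw [smul_zero, zero_add]⟩)
      exact hYl ⟨B * D, by rw [hD, h5, Matrix.smul_mul]⟩
    omega

end MXL53

open MXL53 in
theorem st_MXL : ST_MXL := by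
  intro G _ n l _ hn r ψ ν hψ
  obtain ⟨hdet, hsym, hpres⟩ := hψ
  -- the multiplier is integral
  have hν : ∀ g, ∃ z : ℤ_[l], (z : ℚ_[l]) = ν g := by
    intro g
    have h1 := congrArg Matrix.det (hpres g)
    rw [Matrix.det_mul, Matrix.det_mul, Matrix.det_transpose, Matrix.det_smul, Fintype.card_fin] at h1
    have h2 : (MU.rat r g).det * (MU.rat r g).det = ν g ^ n := by
      refine mul_right_cancel₀ hdet ?_
      rw [← h1]; ring
    have h3 : (MU.rat r g).det = (((r g : Matrix (Fin n) (Fin n) ℤ_[l]).det : ℤ_[l]) : ℚ_[l]) := by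
      rw [map_mul_rat]
      exact ((algebraMap ℤ_[l] ℚ_[l]).map_det _).symm
    have h4 : ‖ν g‖ ^ n ≤ 1 := by
      rw [← norm_pow, ← h2, h3, norm_mul]
      have := PadicInt.norm_le_one (r g : Matrix (Fin n) (Fin n) ℤ_[l]).det
      rw [PadicInt.norm_def] at this
      exact mul_le_one₀ this (norm_nonneg _) this
    have h5 : ‖ν g‖ ≤ 1 := by
      by_contra h
      push Not at h
      exact absurd h4 (not_le.mpr (one_lt_pow₀ h hn.ne'))
    exact ⟨⟨ν g, h5⟩, rfl⟩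
  choose ν' hν' using hν
  -- an integral multiple of the form
  have hint : ∃ (a : ℕ) (Ψ : Matrix (Fin n) (Fin n) ℤ_[l]),
      (algebraMap ℤ_[l] ℚ_[l]).mapMatrix Ψ = ((l : ℚ_[l]) ^ a) • ψ := by
    obtain ⟨b, hb⟩ := IsLocalization.exist_integer_multiples_of_finite (nonZeroDivisors ℤ_[l])
      (fun p : Fin n × Fin n => ψ p.1 p.2)
    have hb0 : (b : ℤ_[l]) ≠ 0 := nonZeroDivisors.ne_zero b.2
    choose z hz using hb
    have e := PadicInt.unitCoeff_spec hb0
    refine ⟨(b : ℤ_[l]).valuation, Matrix.of fun i j =>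
      (((PadicInt.unitCoeff hb0)⁻¹ : ℤ_[l]ˣ) : ℤ_[l]) * z (i, j), ?_⟩
    ext i j
    have h1 : algebraMap ℤ_[l] ℚ_[l] (z (i, j)) =
        algebraMap ℤ_[l] ℚ_[l] (b : ℤ_[l]) * ψ i j := by
      rw [hz (i, j)]
      exact Algebra.smul_def _ _
    rw [RingHom.mapMatrix_apply, Matrix.map_apply, Matrix.of_apply, map_mul, h1, ← mul_assoc,
      ← map_mul, Matrix.smul_apply, smul_eq_mul]
    congr 1
    calc _ = algebraMap ℤ_[l] ℚ_[l] ((((PadicInt.unitCoeff hb0)⁻¹ : ℤ_[l]ˣ) : ℤ_[l]) *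
          (((PadicInt.unitCoeff hb0 : ℤ_[l]ˣ) : ℤ_[l]) * (l : ℤ_[l]) ^ (b : ℤ_[l]).valuation)) := by
          rw [← e]
      _ = _ := by
          rw [← mul_assoc, Units.inv_mul, one_mul, map_pow, map_natCast]
  obtain ⟨a, Ψ₀, hΨ₀⟩ := hint
  have hinj : Function.Injective ((algebraMap ℤ_[l] ℚ_[l]).mapMatrix (m := Fin n)) := by
    intro x y hxy
    ext i j
    have := congrFun (congrFun hxy i) j
    exact (IsFractionRing.injective ℤ_[l] ℚ_[l]) this
  have hl : ((l : ℚ_[l]) ^ a) ≠ 0 :=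
    pow_ne_zero _ (by exact_mod_cast (Fact.out : l.Prime).ne_zero)
  have h0 : Dt r ν' r Ψ₀ := by
    refine ⟨⟨1, fun g => by rw [Units.val_one, Matrix.one_mul, Matrix.mul_one]⟩, ?_, ?_, ?_⟩
    · intro h
      have h1 := (algebraMap ℤ_[l] ℚ_[l]).map_det Ψ₀
      rw [h, map_zero, hΨ₀, Matrix.det_smul] at h1
      exact (mul_ne_zero (pow_ne_zero _ hl) hdet) h1.symm
    · apply hinj
      have h1 : (algebraMap ℤ_[l] ℚ_[l]).mapMatrix Ψ₀.transpose =
          ((algebraMap ℤ_[l] ℚ_[l]).mapMatrix Ψ₀).transpose := by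
        rw [RingHom.mapMatrix_apply, RingHom.mapMatrix_apply, Matrix.transpose_map]
      rw [h1, hΨ₀, Matrix.transpose_smul, hsym]
    · intro g
      apply hinj
      have h1 : (algebraMap ℤ_[l] ℚ_[l]).mapMatrix
          (r g : Matrix (Fin n) (Fin n) ℤ_[l]).transpose = (MU.rat r g).transpose := by
        rw [map_mul_rat, RingHom.mapMatrix_apply, RingHom.mapMatrix_apply, Matrix.transpose_map]
      have h2 : (algebraMap ℤ_[l] ℚ_[l]).mapMatrix (ν' g • Ψ₀) =
          ν g • (algebraMap ℤ_[l] ℚ_[l]).mapMatrix Ψ₀ := by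
        ext i j
        rw [RingHom.mapMatrix_apply, Matrix.map_apply, Matrix.smul_apply, smul_eq_mul, map_mul,
          Matrix.smul_apply, smul_eq_mul, ← hν' g]
        rfl
      rw [map_mul, map_mul, h1, h2, ← map_mul_rat, hΨ₀, Matrix.mul_smul, Matrix.smul_mul,
        hpres g, smul_comm]
  -- the maximal lattice
  have hmax : ∀ (N : ℕ) (s : G →* Matrix.GeneralLinearGroup (Fin n) ℤ_[l])
      (Ψ : Matrix (Fin n) (Fin n) ℤ_[l]), Dt r ν' s Ψ → Ψ.det.valuation ≤ N →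
      ∃ (s' : G →* Matrix.GeneralLinearGroup (Fin n) ℤ_[l])
      (Ψ' X : Matrix (Fin n) (Fin n) ℤ_[l]), Dt r ν' s' Ψ' ∧ Ψ' * X = (l : ℤ_[l]) • 1 := by
    intro N
    induction N with
    | zero =>
      intro s Ψ h hv
      rcases step h with ⟨X, hX⟩ | ⟨t, Ψ', _, h2⟩
      · exact ⟨s, Ψ, X, h, hX⟩
      · omega
    | succ N ih =>
      intro s Ψ h hv
      rcases step h with ⟨X, hX⟩ | ⟨t, Ψ', h1, h2⟩
      · exact ⟨s, Ψ, X, h, hX⟩
      · exact ih t Ψ' h1 (by omega)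
  obtain ⟨s, Ψ, X, hs, hX⟩ := hmax _ r Ψ₀ h0 le_rfl
  have hXΨ : X * Ψ = (l : ℤ_[l]) • 1 := by
    refine MU.lat_cancel hs.det ?_
    rw [← Matrix.mul_assoc, hX, Matrix.smul_mul, Matrix.one_mul, Matrix.mul_smul, Matrix.mul_one]
  have hXt : X.transpose = X := by
    refine cancel_right hs.det ?_
    have := congrArg Matrix.transpose hX
    rw [Matrix.transpose_mul, hs.symm, Matrix.transpose_smul, Matrix.transpose_one] at this
    rw [this, hXΨ]
  refine ⟨s, Ψ, X, ν', hs.eqv, hs.symm, hXt, hX, hν', hs.pres, fun g => ?_⟩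
  -- cancel `sᵀ Ψ` on the left
  have hd : ((s g : Matrix (Fin n) (Fin n) ℤ_[l]).transpose * Ψ).det ≠ 0 := by
    rw [Matrix.det_mul, Matrix.det_transpose]
    refine mul_ne_zero ?_ hs.det
    exact ((Matrix.isUnit_iff_isUnit_det _).mp (s g).isUnit).ne_zero
  refine MU.lat_cancel hd ?_
  calc _ = ((s g : Matrix (Fin n) (Fin n) ℤ_[l]).transpose * Ψ * s g) *
        (X * (s g : Matrix (Fin n) (Fin n) ℤ_[l]).transpose) := by
        simp only [Matrix.mul_assoc]
    _ = ν' g • ((Ψ * X) * (s g : Matrix (Fin n) (Fin n) ℤ_[l]).transpose) := by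
        rw [hs.pres g, Matrix.smul_mul, Matrix.mul_assoc]
    _ = _ := by
        rw [Matrix.mul_smul, Matrix.mul_assoc _ Ψ X, hX, Matrix.smul_mul, Matrix.one_mul,
          Matrix.mul_smul, Matrix.mul_one]

end REC
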