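import Pool.Agent.Helper85.REC.Stmts11
import Pool.Agent.Helper51.REC.Dict

/-!
# SSD: direct sums of completely reducible representations
-/

set_option autoImplicit false

open scoped Classical

namespace REC

open MU

theorem st_SSD : ST_SSD := by
  intro G K _ _ n k m r s P Q h1 h2 h3 h4 hs
  refine isSS_sum r s P Q h3 (fun i g => ?_) hs
  have h5 : r g * Q i = (∑ j, Q j * P j) * (r g * Q i) := by rw [h3, Matrix.one_mul]
  rw [h5, Matrix.sum_mul, Finset.sum_eq_single i]
  · rw [Matrix.mul_assoc, ← Matrix.mul_assoc (P i), h4, Matrix.mul_assoc (s i g), h1, Matrix.mul_one]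
  · intro j _ hj
    rw [Matrix.mul_assoc, ← Matrix.mul_assoc (P j), h4, Matrix.mul_assoc (s j g), h2 j i hj,
      Matrix.mul_zero, Matrix.mul_zero]
  · intro h; exact absurd (Finset.mem_univ i) h

end REC
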