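import Pool.Agent.Helper57.REC.Stmts3

/-!
# Reciprocity, part 3: the theorem on `T`-units (SUN)
-/

set_option autoImplicit false

open scoped Classical
open NumberField

namespace REC

open Pool.Agent.Helper13.ZL (Pl q HasMean)

namespace Sun

variable {K : Type} [Field K] [NumberField K]

theorem abv_le_one_iff (v : Pl K) (x : K) :
    NumberField.HeightOneSpectrum.adicAbv K v x ≤ 1 ↔ v.valuation K x ≤ 1 := by
  have hs := WithZeroMulInt.toNNReal_strictMono
    (NumberField.HeightOneSpectrum.one_lt_absNorm_nnreal v)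
  rw [NumberField.HeightOneSpectrum.adicAbv_def]
  have h1 : ((WithZeroMulInt.toNNReal (NumberField.HeightOneSpectrum.absNorm_ne_zero v)
      (v.valuation K x) : NNReal) : ℝ) ≤ 1 ↔ WithZeroMulInt.toNNReal
        (NumberField.HeightOneSpectrum.absNorm_ne_zero v) (v.valuation K x) ≤
        WithZeroMulInt.toNNReal (NumberField.HeightOneSpectrum.absNorm_ne_zero v) 1 := by
    rw [map_one]
    exact NNReal.coe_le_one
  rw [h1]
  exact hs.le_iff_le

theorem abv_eq_one {v : Pl K} {x : K} (h : v.valuation K x = 1) :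
    NumberField.HeightOneSpectrum.adicAbv K v x = 1 := by
  rw [NumberField.HeightOneSpectrum.adicAbv_def, h, map_one]
  rfl

theorem abv_int_le (v : Pl K) (x : 𝓞 K) :
    NumberField.HeightOneSpectrum.adicAbv K v (x : K) ≤ 1 := by
  rw [← NumberField.FinitePlace.norm_embedding]
  exact NumberField.FinitePlace.norm_le_one K v x

theorem abv_int_lt (v : Pl K) (x : 𝓞 K) :
    NumberField.HeightOneSpectrum.adicAbv K v (x : K) < 1 ↔ x ∈ v.asIdeal := by
  rw [← NumberField.FinitePlace.norm_embedding]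
  exact NumberField.FinitePlace.norm_lt_one_iff_mem K v x

theorem abv_int_eq (v : Pl K) (x : 𝓞 K) :
    NumberField.HeightOneSpectrum.adicAbv K v (x : K) = 1 ↔ x ∉ v.asIdeal := by
  rw [← NumberField.FinitePlace.norm_embedding]
  exact NumberField.FinitePlace.norm_eq_one_iff_notMem K v x

theorem abv_pos (v : Pl K) (x : Kˣ) : 0 < NumberField.HeightOneSpectrum.adicAbv K v (x : K) :=
  (NumberField.HeightOneSpectrum.adicAbv K v).pos x.ne_zero

theorem inf_pos (w : InfinitePlace K) (x : Kˣ) : 0 < w (x : K) :=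
  (InfinitePlace.pos_iff (w := w)).mpr x.ne_zero

/-- additivity -/
theorem lSU_mul (T : Finset (Pl K)) (a b : SU K T) : lSU K T (a * b) = lSU K T a + lSU K T b := by
  funext y
  rcases y with v | w
  · change Real.log (NumberField.HeightOneSpectrum.adicAbv K (v : Pl K)
      (((a : Kˣ) * (b : Kˣ) : Kˣ) : K)) = _
    rw [Units.val_mul, map_mul, Real.log_mul (abv_pos _ _).ne' (abv_pos _ _).ne']
    rfl
  · change (w.mult : ℝ) * Real.log (w (((a : Kˣ) * (b : Kˣ) : Kˣ) : K)) = _
    rw [Units.val_mul, map_mul, Real.log_mul (inf_pos _ _).ne' (inf_pos _ _).ne', mul_add]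
    rfl

/-- the product formula -/
theorem sum_lSU (T : Finset (Pl K)) (x : SU K T) : ∑ y, lSU K T x y = 0 := by
  have h := prod_abs_eq_one (K := K) (x := ((x : Kˣ) : K)) (x : Kˣ).ne_zero
  have h1 : ∏ᶠ w : FinitePlace K, w ((x : Kˣ) : K) =
      ∏ v ∈ T, NumberField.HeightOneSpectrum.adicAbv K v ((x : Kˣ) : K) := by
    rw [← finprod_comp_equiv FinitePlace.equivHeightOneSpectrum.symm]
    have h2 : ∀ v : Pl K, (FinitePlace.equivHeightOneSpectrum.symm v : FinitePlace K)
        ((x : Kˣ) : K) = NumberField.HeightOneSpectrum.adicAbv K v ((x : Kˣ) : K) := by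
      intro v
      change FinitePlace.mk v ((x : Kˣ) : K) = _
      rw [FinitePlace.mk_apply, FinitePlace.norm_embedding]
    simp only [h2]
    refine finprod_eq_prod_of_mulSupport_subset _ ?_
    intro v hv
    rw [Function.mem_mulSupport] at hv
    by_contra hc
    exact hv (abv_eq_one (x.2 v hc))
  rw [h1] at h
  have hp1 : ∏ w : InfinitePlace K, w ((x : Kˣ) : K) ^ w.mult ≠ 0 :=
    Finset.prod_ne_zero_iff.mpr fun w _ => pow_ne_zero _ (inf_pos w x).ne'
  have hp2 : ∏ v ∈ T, NumberField.HeightOneSpectrum.adicAbv K v ((x : Kˣ) : K) ≠ 0 :=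
    Finset.prod_ne_zero_iff.mpr fun v _ => (abv_pos v x).ne'
  have h3 := congrArg Real.log h
  rw [Real.log_mul hp1 hp2, Real.log_one, Real.log_prod, Real.log_prod] at h3
  · rw [Fintype.sum_sum_type]
    have e1 : ∑ v : {v // v ∈ T}, lSU K T x (Sum.inl v) =
        ∑ v ∈ T, Real.log (NumberField.HeightOneSpectrum.adicAbv K v ((x : Kˣ) : K)) := by
      rw [← Finset.sum_coe_sort T]
      rfl
    have e2 : ∑ w : InfinitePlace K, lSU K T x (Sum.inr w) =
        ∑ w : InfinitePlace K, Real.log (w ((x : Kˣ) : K) ^ w.mult) := by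
      refine Finset.sum_congr rfl fun w _ => ?_
      rw [Real.log_pow]
      rfl
    rw [e1, e2, add_comm]
    exact h3
  · intro v _
    exact (abv_pos v x).ne'
  · intro w _
    exact pow_ne_zero _ (inf_pos w x).ne'

/-- finiteness -/
theorem fin_lSU (T : Finset (Pl K)) (R : ℝ) : {a | ‖lSU K T a‖ ≤ R}.Finite := by
  by_cases hR : R < 0
  · have : {a | ‖lSU K T a‖ ≤ R} = ∅ := by
      ext a
      simp only [Set.mem_setOf_eq, Set.mem_empty_iff_false, iff_false, not_le]
      exact hR.trans_le (norm_nonneg _)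
    rw [this]
    exact Set.finite_empty
  push Not at hR
  -- elements of the primes
  have hex : ∀ v : Pl K, ∃ (d : 𝓞 K) (M : ℕ), d ≠ 0 ∧
      NumberField.HeightOneSpectrum.adicAbv K v (d : K) ^ M * Real.exp R ≤ 1 := by
    intro v
    obtain ⟨d, hd, hd0⟩ := Submodule.exists_mem_ne_zero_of_ne_bot v.ne_bot
    have h1 := (abv_int_lt v d).mpr hd
    obtain ⟨M, hM⟩ := exists_pow_lt_of_lt_one (Real.exp_pos (-R)) h1
    refine ⟨d, M, hd0, ?_⟩
    have h2 := mul_le_mul_of_nonneg_right hM.le (Real.exp_pos R).le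
    rwa [← Real.exp_add, neg_add_cancel, Real.exp_zero] at h2
  choose dv Mv hdv hMv using hex
  let d : 𝓞 K := ∏ v ∈ T, dv v ^ Mv v
  have hd0 : d ≠ 0 := Finset.prod_ne_zero_iff.mpr fun v _ => pow_ne_zero _ (hdv v)
  have hdK : (d : K) ≠ 0 := by
    rw [ne_eq, RingOfIntegers.coe_eq_zero_iff]
    exact hd0
  have hdT : ∀ v ∈ T, NumberField.HeightOneSpectrum.adicAbv K v (d : K) * Real.exp R ≤ 1 := by
    intro v hv
    have e : (d : K) = (dv v : K) ^ Mv v * ((∏ u ∈ T.erase v, dv u ^ Mv u : 𝓞 K) : K) := by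
      have : d = dv v ^ Mv v * ∏ u ∈ T.erase v, dv u ^ Mv u :=
        (Finset.mul_prod_erase T (fun u => dv u ^ Mv u) hv).symm
      rw [this]
      push_cast
      rfl
    rw [e, map_mul, map_pow]
    have h1 := abv_int_le v (∏ u ∈ T.erase v, dv u ^ Mv u : 𝓞 K)
    have h2 : 0 ≤ NumberField.HeightOneSpectrum.adicAbv K v (dv v : K) ^ Mv v * Real.exp R :=
      mul_nonneg (pow_nonneg (AbsoluteValue.nonneg _ _) _) (Real.exp_pos R).le
    calc _ = NumberField.HeightOneSpectrum.adicAbv K v (dv v : K) ^ Mv v * Real.exp R *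
        NumberField.HeightOneSpectrum.adicAbv K v
          ((∏ u ∈ T.erase v, dv u ^ Mv u : 𝓞 K) : K) := by ring
      _ ≤ NumberField.HeightOneSpectrum.adicAbv K v (dv v : K) ^ Mv v * Real.exp R * 1 :=
        mul_le_mul_of_nonneg_left h1 h2
      _ ≤ 1 := by rw [mul_one]; exact hMv v
  obtain ⟨C, hC⟩ : ∃ C : ℝ, ∀ φ : K →+* ℂ, ‖φ (d : K)‖ ≤ C :=
    ⟨∑ φ : K →+* ℂ, ‖φ (d : K)‖, fun φ =>
      Finset.single_le_sum (f := fun φ : K →+* ℂ => ‖φ (d : K)‖) (fun _ _ => norm_nonneg _)
        (Finset.mem_univ φ)⟩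
  have hfin := Embeddings.finite_of_norm_le K ℂ (C * Real.exp R)
  have hinj : Function.Injective (fun a : SU K T => (d : K) * ((a : Kˣ) : K)) := by
    intro a b hab
    have := mul_left_cancel₀ hdK hab
    exact Subtype.ext (Units.ext this)
  refine (hfin.preimage hinj.injOn).subset ?_
  intro a ha
  rw [Set.mem_setOf_eq] at ha
  have hcomp : ∀ y, |lSU K T a y| ≤ R := fun y =>
    ((norm_le_pi_norm (lSU K T a) y).trans ha)
  rw [Set.mem_preimage, Set.mem_setOf_eq]
  constructor
  · -- integrality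
    have hv : ∀ v : Pl K, v.valuation K ((d : K) * ((a : Kˣ) : K)) ≤ 1 := by
      intro v
      rw [← abv_le_one_iff, map_mul]
      by_cases hvT : v ∈ T
      · have h1 := hcomp (Sum.inl ⟨v, hvT⟩)
        change |Real.log (NumberField.HeightOneSpectrum.adicAbv K v ((a : Kˣ) : K))| ≤ R at h1
        have h2 := (abs_le.mp h1).2
        rw [Real.log_le_iff_le_exp (abv_pos v a)] at h2
        exact (mul_le_mul_of_nonneg_left h2 (AbsoluteValue.nonneg _ _)).trans (hdT v hvT)
      · rw [abv_eq_one (a.2 v hvT), mul_one]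
        exact abv_int_le v d
    obtain ⟨z, hz⟩ := IsDedekindDomain.HeightOneSpectrum.mem_integers_of_valuation_le_one K
      ((d : K) * ((a : Kˣ) : K)) hv
    rw [← hz]
    exact z.2
  · intro φ
    rw [map_mul, norm_mul]
    have h1 := hcomp (Sum.inr (InfinitePlace.mk φ))
    change |((InfinitePlace.mk φ).mult : ℝ) * Real.log ((InfinitePlace.mk φ) ((a : Kˣ) : K))| ≤ R at h1
    have h2 := (abs_le.mp h1).2
    have hm : (1 : ℝ) ≤ ((InfinitePlace.mk φ).mult : ℝ) := by
      exact_mod_cast InfinitePlace.mult_pos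
    have h3 : Real.log ((InfinitePlace.mk φ) ((a : Kˣ) : K)) ≤ R := by
      by_cases hl : 0 ≤ Real.log ((InfinitePlace.mk φ) ((a : Kˣ) : K))
      · nlinarith
      · push Not at hl
        linarith
    rw [Real.log_le_iff_le_exp (inf_pos (InfinitePlace.mk φ) (a : Kˣ))] at h3
    rw [InfinitePlace.apply] at h3
    exact mul_le_mul (hC φ) h3 (norm_nonneg _) ((norm_nonneg _).trans (hC φ))

/-- the units inside the `T`-units -/
noncomputable def uT (T : Finset (Pl K)) (u : (𝓞 K)ˣ) : SU K T :=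
  ⟨Units.map (algebraMap (𝓞 K) K : 𝓞 K →* K) u, by
    intro v _
    change v.valuation K (((u : 𝓞 K) : K)) = 1
    rw [IsDedekindDomain.HeightOneSpectrum.valuation_eq_one_iff_notMem]
    intro hc
    exact v.isPrime.ne_top (Ideal.eq_top_of_isUnit_mem _ hc u.isUnit)⟩

theorem lSU_uT_inl (T : Finset (Pl K)) (u : (𝓞 K)ˣ) (v : {v // v ∈ T}) :
    lSU K T (uT T u) (Sum.inl v) = 0 := by
  change Real.log (NumberField.HeightOneSpectrum.adicAbv K (v : Pl K) (((u : 𝓞 K) : K))) = 0
  rw [(abv_int_eq (v : Pl K) (u : 𝓞 K)).mpr, Real.log_one]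
  intro hc
  exact (v : Pl K).isPrime.ne_top (Ideal.eq_top_of_isUnit_mem _ hc u.isUnit)

theorem lSU_uT_inr (T : Finset (Pl K)) (u : (𝓞 K)ˣ) (w : InfinitePlace K) :
    lSU K T (uT T u) (Sum.inr w) = w.mult * Real.log (w ((u : 𝓞 K) : K)) := rfl

open NumberField.Units NumberField.Units.dirichletUnitTheorem in
/-- the section of the projection to the infinite places different from `w₀` -/
noncomputable def sec (T : Finset (Pl K)) :
    logSpace K →ₗ[ℝ] ({v // v ∈ T} ⊕ InfinitePlace K → ℝ) where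
  toFun := fun h y => match y with
    | Sum.inl _ => 0
    | Sum.inr w => if hw : w ≠ w₀ then h ⟨w, hw⟩ else -∑ w, h w
  map_add' := by
    intro g h
    funext y
    rcases y with v | w
    · simp
    · by_cases hw : w ≠ w₀
      · simp [hw]
      · simp only [dif_neg hw, Pi.add_apply, Finset.sum_add_distrib, neg_add]
  map_smul' := by
    intro c h
    funext y
    rcases y with v | w
    · simp
    · by_cases hw : w ≠ w₀
      · simp [hw]
      · simp only [dif_neg hw, Pi.smul_apply, smul_eq_mul, ← Finset.mul_sum, RingHom.id_apply]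
        ring

open NumberField.Units NumberField.Units.dirichletUnitTheorem in
theorem sec_eq (T : Finset (Pl K)) (g : {v // v ∈ T} ⊕ InfinitePlace K → ℝ)
    (h0 : ∀ v, g (Sum.inl v) = 0) (hs : ∑ y, g y = 0) :
    sec T (fun w => g (Sum.inr (w : InfinitePlace K))) = g := by
  funext y
  rcases y with v | w
  · exact (h0 v).symm
  · change (if hw : w ≠ w₀ then g (Sum.inr w) else
      -∑ w : {w : InfinitePlace K // w ≠ w₀}, g (Sum.inr (w : InfinitePlace K))) = _
    by_cases hw : w ≠ w₀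
    · rw [dif_pos hw]
    · rw [dif_neg hw]
      push Not at hw
      rw [Fintype.sum_sum_type, Finset.sum_eq_zero (fun v _ => h0 v), zero_add,
        Fintype.sum_eq_add_sum_subtype_ne _ (w₀ : InfinitePlace K)] at hs
      rw [hw]
      linarith

open NumberField.Units NumberField.Units.dirichletUnitTheorem in
/-- vectors supported at infinity -/
theorem span_inf (T : Finset (Pl K)) (g : {v // v ∈ T} ⊕ InfinitePlace K → ℝ)
    (h0 : ∀ v, g (Sum.inl v) = 0) (hs : ∑ y, g y = 0) :
    g ∈ Submodule.span ℝ (Set.range (lSU K T)) := by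
  have hle : Submodule.span ℝ (unitLattice K : Set (logSpace K)) ≤
      (Submodule.span ℝ (Set.range (lSU K T))).comap (sec T) := by
    rw [Submodule.span_le]
    intro h hh
    obtain ⟨u, -, rfl⟩ := hh
    rw [SetLike.mem_coe, Submodule.mem_comap]
    have e : sec T ((logEmbedding K) u) = lSU K T (uT T u.toMul) := by
      rw [← sec_eq T (lSU K T (uT T u.toMul)) (fun v => lSU_uT_inl T _ v) (sum_lSU T _)]
      rfl
    have e' : sec T ((logEmbedding K).toIntLinearMap u) = lSU K T (uT T u.toMul) := e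
    rw [e']
    exact Submodule.subset_span ⟨_, rfl⟩
  rw [unitLattice_span_eq_top] at hle
  have := hle (show ((fun w => g (Sum.inr (w : InfinitePlace K))) : logSpace K) ∈ (⊤ : Submodule ℝ (logSpace K)) from Submodule.mem_top)
  rw [Submodule.mem_comap, sec_eq T g h0 hs] at this
  exact this

/-- an element which is a unit outside `v` -/
theorem ex_unif (T : Finset (Pl K)) (v : Pl K) (hv : v ∈ T) : ∃ x : SU K T,
    NumberField.HeightOneSpectrum.adicAbv K v ((x : Kˣ) : K) < 1 ∧
    ∀ v' : Pl K, v' ≠ v → NumberField.HeightOneSpectrum.adicAbv K v' ((x : Kˣ) : K) = 1 := by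
  have hv0 : v.asIdeal ∈ nonZeroDivisors (Ideal (𝓞 K)) := mem_nonZeroDivisors_of_ne_zero v.ne_bot
  set h := Fintype.card (ClassGroup (𝓞 K)) with hh
  have hpos : 0 < h := Fintype.card_pos
  have hpr : (v.asIdeal ^ h).IsPrincipal := by
    have hmem : v.asIdeal ^ h ∈ nonZeroDivisors (Ideal (𝓞 K)) := pow_mem hv0 h
    rw [← ClassGroup.mk0_eq_one_iff hmem]
    have e : (⟨v.asIdeal ^ h, hmem⟩ : nonZeroDivisors (Ideal (𝓞 K))) = ⟨v.asIdeal, hv0⟩ ^ h := rfl
    rw [e, map_pow, hh, pow_card_eq_one]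
  obtain ⟨π, hπ⟩ := hpr
  have hπ' : v.asIdeal ^ h = Ideal.span {π} := hπ
  have hπ0 : π ≠ 0 := by
    rintro rfl
    rw [Ideal.span_singleton_eq_bot.mpr rfl] at hπ'
    exact pow_ne_zero h v.ne_bot hπ'
  have hπm : π ∈ v.asIdeal ^ h := by rw [hπ']; exact Ideal.mem_span_singleton_self π
  have hπv : π ∈ v.asIdeal := Ideal.pow_le_self hpos.ne' hπm
  have hπn : ∀ v' : Pl K, v' ≠ v → π ∉ v'.asIdeal := by
    intro v' hne hc
    have h1 : v.asIdeal ^ h ≤ v'.asIdeal := by
      rw [hπ', Ideal.span_singleton_le_iff_mem]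
      exact hc
    have h2 : v.asIdeal ≤ v'.asIdeal := v'.isPrime.le_of_pow_le h1
    have h3 : v.asIdeal = v'.asIdeal := v.isMaximal.eq_of_le v'.isPrime.ne_top h2
    exact hne (IsDedekindDomain.HeightOneSpectrum.ext h3.symm)
  have hπK : (π : K) ≠ 0 := by
    rw [ne_eq, RingOfIntegers.coe_eq_zero_iff]
    exact hπ0
  refine ⟨⟨Units.mk0 (π : K) hπK, ?_⟩, (abv_int_lt v π).mpr hπv, fun v' hne =>
    (abv_int_eq v' π).mpr (hπn v' hne)⟩
  intro v' hv'
  change v'.valuation K (π : K) = 1
  rw [IsDedekindDomain.HeightOneSpectrum.valuation_eq_one_iff_notMem]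
  refine hπn v' ?_
  rintro rfl
  exact hv' hv

end Sun

open Sun in
/-- SUN -/
theorem st_SUN : ST_SUN := by
  intro K _ _ T
  refine ⟨lSU_mul T, fin_lSU T, fun f => ⟨?_, ?_⟩⟩
  · intro hf
    induction hf using Submodule.span_induction with
    | mem g hg =>
      obtain ⟨x, rfl⟩ := hg
      exact sum_lSU T x
    | zero => simp
    | add g h _ _ hg hh =>
      simp only [Pi.add_apply, Finset.sum_add_distrib, hg, hh, add_zero]
    | smul c g _ hg =>
      simp only [Pi.smul_apply, smul_eq_mul, ← Finset.mul_sum, hg, mul_zero]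
  · intro hf
    choose x hx1 hx2 using fun v : {v // v ∈ T} => ex_unif T (v : Pl K) v.2
    have hl : ∀ v : {v // v ∈ T}, lSU K T (x v) (Sum.inl v) ≠ 0 := by
      intro v
      change Real.log (NumberField.HeightOneSpectrum.adicAbv K (v : Pl K) ((x v : Kˣ) : K)) ≠ 0
      exact (Real.log_neg (abv_pos _ _) (hx1 v)).ne
    have hl' : ∀ v u : {v // v ∈ T}, u ≠ v → lSU K T (x v) (Sum.inl u) = 0 := by
      intro v u huv
      change Real.log (NumberField.HeightOneSpectrum.adicAbv K (u : Pl K) ((x v : Kˣ) : K)) = 0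
      rw [hx2 v u (fun hc => huv (Subtype.ext hc)), Real.log_one]
    set g : {v // v ∈ T} ⊕ InfinitePlace K → ℝ :=
      ∑ v : {v // v ∈ T}, (f (Sum.inl v) / lSU K T (x v) (Sum.inl v)) • lSU K T (x v) with hg
    have hgm : g ∈ Submodule.span ℝ (Set.range (lSU K T)) :=
      Submodule.sum_mem _ fun v _ => Submodule.smul_mem _ _ (Submodule.subset_span ⟨_, rfl⟩)
    have hgs : ∑ y, g y = 0 := by
      simp only [hg, Finset.sum_apply, Pi.smul_apply, smul_eq_mul]
      rw [Finset.sum_comm]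
      refine Finset.sum_eq_zero fun v _ => ?_
      rw [← Finset.mul_sum, sum_lSU, mul_zero]
    have hgi : ∀ v, g (Sum.inl v) = f (Sum.inl v) := by
      intro v
      simp only [hg, Finset.sum_apply, Pi.smul_apply, smul_eq_mul]
      rw [Finset.sum_eq_single v]
      · exact div_mul_cancel₀ _ (hl v)
      · intro u _ huv
        rw [hl' u v huv.symm, mul_zero]
      · intro hc
        exact absurd (Finset.mem_univ _) hc
    have h1 : f - g ∈ Submodule.span ℝ (Set.range (lSU K T)) := by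
      refine span_inf T (f - g) ?_ ?_
      · intro v
        rw [Pi.sub_apply, hgi, sub_self]
      · simp only [Pi.sub_apply, Finset.sum_sub_distrib, hf, hgs, sub_self]
    have := Submodule.add_mem _ h1 hgm
    rwa [sub_add_cancel] at this

end REC
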