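import Pool.Agent.Helper85.REC.Stmts7

/-!
# TAL: tame reciprocity for characters ramified only at `Bl`
-/

set_option autoImplicit false

open scoped Classical
open NumberField

namespace REC

open Pool.Agent.Helper13.ZL (Pl q)
open MU (Gal Zb Over CongPow)

theorem st_TAL (hTAM : ST_TAM) (hREC : ST_REC) (hEV : ST_EV) (hAPX : ST_APX) : ST_TAL := by
  intro F _ _ A _ ε Bl φ π f hop hphi htame x hx0 hxp X hX
  obtain ⟨ev_top, ev_mul, -⟩ := hEV F A
  obtain ⟨N0, hN0, h0⟩ := hREC F A ε hop Bl φ hphi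
  have hT : ∀ v : Pl F, ∃ N : ℕ, v ∈ Bl → ∀ x : 𝓞 F, Ray (Bl.erase v) N x →
      ∀ X : (𝓞 F ⧸ v.asIdeal)ˣ, (X : 𝓞 F ⧸ v.asIdeal) = Ideal.Quotient.mk v.asIdeal x →
        ev φ (Ideal.span {x}) * f v X = 1 := by
    intro v
    by_cases hv : v ∈ Bl
    · obtain ⟨N, h1, h2⟩ := hTAM F v A ε Bl φ (π v) (f v) hop hv hphi (htame v hv)
      exact ⟨N, fun _ => h2⟩
    · exact ⟨1, fun h => absurd h hv⟩
  choose Nv hTv using hT
  set N := N0 + ∑ v ∈ Bl, Nv v with hN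
  have hle0 : N0 ≤ N := Nat.le_add_right _ _
  have hNpos : N ≠ 0 := by omega
  have hlev : ∀ v ∈ Bl, Nv v ≤ N := fun v hv =>
    (Finset.single_le_sum (f := Nv) (fun _ _ => Nat.zero_le _) hv).trans (Nat.le_add_left _ _)
  -- multiplicativity
  have hmul : ∀ s t : 𝓞 F, s ≠ 0 → t ≠ 0 → ev φ (Ideal.span {s * t}) =
      ev φ (Ideal.span {s}) * ev φ (Ideal.span {t}) := by
    intro s t hs ht
    rw [← Ideal.span_singleton_mul_span_singleton]
    exact ev_mul φ _ _ (by rwa [Ne, Ideal.span_singleton_eq_bot])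
      (by rwa [Ne, Ideal.span_singleton_eq_bot])
  -- approximations
  have happ : ∀ v : Pl F, ∃ y : 𝓞 F, y ≠ 0 ∧ TotPos (y : F) ∧ y - x ∈ v.asIdeal ^ N ∧
      ∀ v' ∈ Bl, v' ≠ v → y - 1 ∈ v'.asIdeal ^ N := by
    intro v
    obtain ⟨y, h1, h2, h3⟩ := hAPX F (insert v Bl) N (fun v' => if v' = v then x else 1)
      (fun _ => 1) (fun _ => one_ne_zero)
    refine ⟨y, h1, fun σ => ?_, ?_, ?_⟩
    · have := h3 σ
      rwa [one_mul] at this
    · have := h2 v (Finset.mem_insert_self _ _)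
      rwa [if_pos rfl] at this
    · intro v' hv' hne
      have := h2 v' (Finset.mem_insert_of_mem hv')
      rwa [if_neg hne] at this
  choose y hy0 hyp hyx hy1 using happ
  have hxv : ∀ v ∈ Bl, x ∉ v.asIdeal := by
    intro v hv hx
    have h1 := hX v hv
    rw [Ideal.Quotient.eq_zero_iff_mem.mpr hx] at h1
    have := v.isPrime.ne_top
    have hnt : Nontrivial (𝓞 F ⧸ v.asIdeal) := Ideal.Quotient.nontrivial_iff.mpr this
    exact (X v).ne_zero h1
  have hinv : ∀ v : Pl F, ∃ a : 𝓞 F, v ∈ Bl → a * x - 1 ∈ v.asIdeal ^ N := by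
    intro v
    by_cases hv : v ∈ Bl
    · have h1 : IsCoprime v.asIdeal (Ideal.span {x}) := by
        rw [Ideal.isCoprime_iff_exists]
        obtain ⟨b, i, hi, hbi⟩ := v.isMaximal.exists_inv (hxv v hv)
        exact ⟨i, hi, b * x, Ideal.mem_span_singleton'.mpr ⟨b, rfl⟩, by rw [← hbi]; ring⟩
      have h2 : IsCoprime (v.asIdeal ^ N) (Ideal.span {x}) := h1.pow_left
      obtain ⟨i, hi, j, hj, hij⟩ := Ideal.isCoprime_iff_exists.mp h2
      obtain ⟨b, rfl⟩ := Ideal.mem_span_singleton'.mp hj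
      refine ⟨b, fun _ => ?_⟩
      have e : b * x - 1 = -i := by rw [← hij]; ring
      rw [e]
      exact (Ideal.neg_mem_iff _).mpr hi
    · exact ⟨0, fun h => absurd h hv⟩
  choose a ha using hinv
  obtain ⟨z, hz0, hza, hzp⟩ := hAPX F Bl N a (fun _ => 1) (fun _ => one_ne_zero)
  have hzp' : TotPos (z : F) := fun σ => by
    have := hzp σ
    rwa [one_mul] at this
  have tp_mul : ∀ s t : 𝓞 F, TotPos (s : F) → TotPos (t : F) → TotPos ((s * t : 𝓞 F) : F) := by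
    intro s t hs ht σ
    have e : σ ((s * t : 𝓞 F) : F) = σ (s : F) * σ (t : F) := by
      rw [← map_mul]
      rfl
    rw [e]
    exact mul_pos (hs σ) (ht σ)
  have hzx : ev φ (Ideal.span {z * x}) = 1 := by
    refine h0 _ ⟨mul_ne_zero hz0 hx0, tp_mul _ _ hzp' hxp, fun v hv => ?_⟩
    refine Ideal.pow_le_pow_right hle0 ?_
    have e : z * x - 1 = (z - a v) * x + (a v * x - 1) := by ring
    rw [e]
    exact Ideal.add_mem _ (Ideal.mul_mem_right _ _ (hza v hv)) (ha v hv)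
  have hprod : ∀ S : Finset (Pl F), (∏ v ∈ S, y v ≠ 0) ∧ TotPos ((∏ v ∈ S, y v : 𝓞 F) : F) ∧
      ev φ (Ideal.span {∏ v ∈ S, y v}) = ∏ v ∈ S, ev φ (Ideal.span {y v}) := by
    intro S
    induction S using Finset.induction_on with
    | empty =>
      refine ⟨by simp, fun σ => by simp, ?_⟩
      rw [Finset.prod_empty, Finset.prod_empty, Ideal.span_singleton_one]
      exact ev_top φ
    | insert v S hv ih =>
      obtain ⟨i1, i2, i3⟩ := ih
      rw [Finset.prod_insert hv, Finset.prod_insert hv, hmul _ _ (hy0 v) i1, i3]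
      exact ⟨mul_ne_zero (hy0 v) i1, tp_mul _ _ (hyp v) i2, rfl⟩
  obtain ⟨p1, p2, p3⟩ := hprod Bl
  have hpx : ∀ v ∈ Bl, (∏ v' ∈ Bl, y v') - x ∈ v.asIdeal ^ N := by
    intro v hv
    rw [← Ideal.Quotient.eq, map_prod, ← Finset.mul_prod_erase _ _ hv,
      Ideal.Quotient.eq.mpr (hyx v), Finset.prod_eq_one, mul_one]
    intro v' hv'
    obtain ⟨h1, h2⟩ := Finset.mem_erase.mp hv'
    rw [← map_one (Ideal.Quotient.mk (v.asIdeal ^ N)), Ideal.Quotient.eq]
    exact hy1 v' v hv (Ne.symm h1)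
  have hzy : ev φ (Ideal.span {z * ∏ v ∈ Bl, y v}) = 1 := by
    refine h0 _ ⟨mul_ne_zero hz0 p1, tp_mul _ _ hzp' p2, fun v hv => ?_⟩
    refine Ideal.pow_le_pow_right hle0 ?_
    have e : z * (∏ v ∈ Bl, y v) - 1 = z * ((∏ v ∈ Bl, y v) - x) + ((z - a v) * x +
      (a v * x - 1)) := by ring
    rw [e]
    exact Ideal.add_mem _ (Ideal.mul_mem_left _ _ (hpx v hv))
      (Ideal.add_mem _ (Ideal.mul_mem_right _ _ (hza v hv)) (ha v hv))
  rw [hmul _ _ hz0 hx0] at hzx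
  rw [hmul _ _ hz0 p1, p3] at hzy
  have hev : ev φ (Ideal.span {x}) = ∏ v ∈ Bl, ev φ (Ideal.span {y v}) :=
    mul_left_cancel (hzx.trans hzy.symm)
  rw [hev, ← Finset.prod_mul_distrib]
  refine Finset.prod_eq_one fun v hv => ?_
  refine hTv v hv (y v) ⟨hy0 v, hyp v, fun v' hv' => ?_⟩ (X v) ?_
  · obtain ⟨h1, h2⟩ := Finset.mem_erase.mp hv'
    exact Ideal.pow_le_pow_right (hlev v hv) (hy1 v v' h2 h1)
  · rw [hX v hv, eq_comm, Ideal.Quotient.eq]
    exact Ideal.pow_le_self hNpos (hyx v)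

end REC
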